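import Pool.Agent.Lib.MP_1fca17_co.Top.Defs

/-!
# MP_1fca17_co, ROOM TOP: rows BALL and MINOR (helper56)
-/

namespace Pool.Agent.Lib.MP_1fca17_co.Top

open Set

namespace B56

theorem exists_pos_le {ι : Type*} [Finite ι] (r : ι → ℝ) (hr : ∀ i, 0 < r i) :
    ∃ δ : ℝ, 0 < δ ∧ ∀ i, δ ≤ r i := by
  rcases isEmpty_or_nonempty ι with h | h
  · exact ⟨1, one_pos, fun i => (h.false i).elim⟩
  · obtain ⟨i, hi⟩ := Finite.exists_min r
    exact ⟨r i, hr i, hi⟩

theorem compact_sep {A B : Set (ℝ × ℝ)} (hA : IsCompact A) (hB : IsCompact B)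
    (h : Disjoint A B) : ∃ r : ℝ, 0 < r ∧ ∀ x ∈ A, ∀ y ∈ B, r < dist x y := by
  obtain ⟨r, hr, h2⟩ := Metric.exists_pos_forall_lt_edist hA hB.isClosed h
  refine ⟨r, hr, fun x hx y hy => ?_⟩
  have := h2 x hx y hy
  rw [edist_dist] at this
  have h3 : ((r : NNReal) : ENNReal) = ENNReal.ofReal (r : ℝ) := by
    simp
  rw [h3] at this
  exact (ENNReal.ofReal_lt_ofReal_iff_of_nonneg r.2).1 this

/-- one distance for finitely many pairs of disjoint compact sets -/
theorem fam_sep {ι : Type*} [Finite ι] (A B : ι → Set (ℝ × ℝ)) (hA : ∀ i, IsCompact (A i))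
    (hB : ∀ i, IsCompact (B i)) :
    ∃ δ : ℝ, 0 < δ ∧ ∀ i, Disjoint (A i) (B i) → ∀ x ∈ A i, ∀ y ∈ B i, δ < dist x y := by
  have h : ∀ i, ∃ r : ℝ, 0 < r ∧ (Disjoint (A i) (B i) → ∀ x ∈ A i, ∀ y ∈ B i, r < dist x y) := by
    intro i
    by_cases hd : Disjoint (A i) (B i)
    · obtain ⟨r, hr, h⟩ := compact_sep (hA i) (hB i) hd
      exact ⟨r, hr, fun _ => h⟩
    · exact ⟨1, one_pos, fun h => absurd h hd⟩
  choose r hr hr2 using h
  obtain ⟨δ, hδ, hδ2⟩ := exists_pos_le r hr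
  exact ⟨δ, hδ, fun i hd x hx y hy => lt_of_le_of_lt (hδ2 i) (hr2 i hd x hx y hy)⟩

theorem rtg_symm {C : Type} {adj : C → C → Prop} (hsym : ∀ x y, adj x y → adj y x) {S : Set C}
    {x y : C} (h : Relation.ReflTransGen (fun a b => a ∈ S ∧ b ∈ S ∧ adj a b) x y) :
    Relation.ReflTransGen (fun a b => a ∈ S ∧ b ∈ S ∧ adj a b) y x := by
  induction h with
  | refl => exact Relation.ReflTransGen.refl
  | tail _ h2 ih => exact Relation.ReflTransGen.head ⟨h2.2.1, h2.1, hsym _ _ h2.2.2⟩ ih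

theorem rtg_mono {C : Type} {adj : C → C → Prop} {S T : Set C} (h : S ⊆ T) {x y : C}
    (hs : Relation.ReflTransGen (fun a b => a ∈ S ∧ b ∈ S ∧ adj a b) x y) :
    Relation.ReflTransGen (fun a b => a ∈ T ∧ b ∈ T ∧ adj a b) x y := by
  induction hs with
  | refl => exact Relation.ReflTransGen.refl
  | tail _ h2 ih => exact ih.tail ⟨h h2.1, h h2.2.1, h2.2.2⟩

/-- the elements of `R` reachable from `c0` inside `R \ B` -/
def Reach {C : Type} (adj : C → C → Prop) (R B : Set C) (c0 : C) : Set C :=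
  {c | Relation.ReflTransGen (fun a b => a ∈ R \ B ∧ b ∈ R \ B ∧ adj a b) c0 c}

theorem reach_sub {C : Type} {adj : C → C → Prop} {R B : Set C} {c0 : C} (h0 : c0 ∈ R \ B) :
    Reach adj R B c0 ⊆ R \ B := by
  intro c hc
  induction hc with
  | refl => exact h0
  | tail _ h2 _ => exact h2.2.1

theorem reach_conn {C : Type} {adj : C → C → Prop} {R B : Set C} {c0 c : C}
    (hc : c ∈ Reach adj R B c0) : Relation.ReflTransGen
      (fun a b => a ∈ Reach adj R B c0 ∧ b ∈ Reach adj R B c0 ∧ adj a b) c0 c := by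
  have hc' : Relation.ReflTransGen (fun a b => a ∈ R \ B ∧ b ∈ R \ B ∧ adj a b) c0 c := hc
  clear hc
  induction hc' with
  | refl => exact Relation.ReflTransGen.refl
  | tail h1 h2 ih => exact ih.tail ⟨h1, Relation.ReflTransGen.tail h1 h2, h2.2.2⟩

end B56

open B56 in
theorem stMinor : StMinor := by
  intro W X A R B C s t hsym hBne hB hC hBB hCC hCB hst hmeet
  choose c0 hc0 using fun a => (hmeet a).1
  choose c1 hc1 using fun a => (hmeet a).2
  have h0 : ∀ a, c0 a ∈ C a \ B (t a) := fun a =>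
    ⟨(hc0 a).1, fun h => Set.disjoint_left.1 (hBB _ _ (hst a)) (hc0 a).2 h⟩
  set T : A → Set W := fun a => Reach R (C a) (B (t a)) (c0 a) with hT
  have hTs : ∀ a, T a ⊆ C a \ B (t a) := fun a => reach_sub (h0 a)
  have hTc0 : ∀ a, c0 a ∈ T a := fun a => Relation.ReflTransGen.refl
  set D : X → Set W := fun x => B x ∪ ⋃ a ∈ {a | s a = x}, T a with hD
  have hKD : ∀ x, B x ⊆ D x := fun x => subset_union_left
  have hTD : ∀ a, T a ⊆ D (s a) := fun a c hc => Or.inr (mem_iUnion₂.2 ⟨a, rfl, hc⟩)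
  have hmem : ∀ x c, c ∈ D x → c ∈ B x ∨ ∃ a, s a = x ∧ c ∈ T a := by
    intro x c hc
    rcases hc with h | h
    · exact Or.inl h
    · obtain ⟨a, ha, hc⟩ := mem_iUnion₂.1 h
      exact Or.inr ⟨a, ha, hc⟩
  refine ⟨D, hKD, ?_, ?_, ?_, ?_⟩
  · intro x c hc
    rcases hmem x c hc with h | ⟨a, _, h⟩
    · exact Or.inl h
    · exact Or.inr (mem_iUnion.2 ⟨a, (hTs a h).1⟩)
  · intro x
    obtain ⟨z, hz⟩ := hBne x
    have key : ∀ c ∈ D x, Relation.ReflTransGen (fun a b => a ∈ D x ∧ b ∈ D x ∧ R a b) z c := by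
      intro c hc
      rcases hmem x c hc with h | ⟨a, rfl, h⟩
      · exact rtg_mono (hKD x) (hB x z hz c h)
      · exact (rtg_mono (hKD _) (hB _ z hz _ (hc0 a).2)).trans
          (rtg_mono (hTD a) (reach_conn h))
    exact fun c hc c' hc' => (rtg_symm hsym (key c hc)).trans (key c' hc')
  · intro x y hxy
    rw [Set.disjoint_left]
    intro c hcx hcy
    have hKT : ∀ a z, s a ≠ z → c ∈ T a → c ∈ B z → False := by
      intro a z haz hT1 hK1
      by_cases hb : z = t a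
      · subst hb
        exact (hTs a hT1).2 hK1
      · exact Set.disjoint_left.1 (hCB a z (Ne.symm haz) hb) (hTs a hT1).1 hK1
    rcases hmem x c hcx with h | ⟨a, rfl, h⟩
    · rcases hmem y c hcy with h' | ⟨b, rfl, h'⟩
      · exact Set.disjoint_left.1 (hBB x y hxy) h h'
      · exact hKT b x (Ne.symm hxy) h' h
    · rcases hmem y c hcy with h' | ⟨b, rfl, h'⟩
      · exact hKT a y hxy h h'
      · have hab : a ≠ b := fun h => hxy (h ▸ rfl)
        exact Set.disjoint_left.1 (hCC a b hab) (hTs a h).1 (hTs b h').1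
  · intro a
    have key : ∀ c, Relation.ReflTransGen (fun x y => x ∈ C a ∧ y ∈ C a ∧ R x y) (c0 a) c →
        c ∈ T a ∨ ∃ u ∈ T a, ∃ v ∈ B (t a), R u v := by
      intro c hc
      induction hc with
      | refl => exact Or.inl (hTc0 a)
      | @tail u v _ h2 ih =>
        rcases ih with ih | ih
        · by_cases hv : v ∈ B (t a)
          · exact Or.inr ⟨u, ih, v, hv, h2.2.2⟩
          · exact Or.inl (Relation.ReflTransGen.tail ih ⟨hTs a ih, ⟨h2.2.1, hv⟩, h2.2.2⟩)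
        · exact Or.inr ih
    rcases key (c1 a) (hC a _ (hc0 a).1 _ (hc1 a).1) with h | ⟨u, hu, v, hv, huv⟩
    · exact absurd (hc1 a).2 (hTs a h).2
    · exact ⟨u, hTD a hu, v, hKD _ hv, huv⟩

open B56 in
theorem stBall : StBall := by
  intro X A _ _ z s t γ hP
  have harc : ∀ a, IsCompact (γ a '' Icc (0 : ℝ) 1) :=
    fun a => isCompact_Icc.image_of_continuousOn (hP.cont a)
  have hend : ∀ a, ∀ r ∈ Icc (0 : ℝ) 1, γ a r ∈ range z → r = 0 ∨ r = 1 := by
    intro a r hr hz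
    by_contra hcon
    push Not at hcon
    exact hP.inner a r ⟨lt_of_le_of_ne hr.1 (Ne.symm hcon.1), lt_of_le_of_ne hr.2 hcon.2⟩ hz
  -- `z x` is not on the piece `a` unless it is an end
  have hoff : ∀ a x, x ≠ s a → x ≠ t a → z x ∉ γ a '' Icc (0 : ℝ) 1 := by
    rintro a x hxa hxb ⟨r, hr, hgr⟩
    rcases hend a r hr ⟨x, hgr.symm⟩ with h | h
    · subst h
      rw [hP.start] at hgr
      exact hxa (hP.inj hgr).symm
    · subst h
      rw [hP.stop] at hgr
      exact hxb (hP.inj hgr).symm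
  -- the radius of the balls
  obtain ⟨ε1, hε1, hε1'⟩ := fam_sep (ι := X × X) (fun p => {z p.1}) (fun p => {z p.2})
    (fun _ => isCompact_singleton) (fun _ => isCompact_singleton)
  obtain ⟨ε2, hε2, hε2'⟩ := fam_sep (ι := X × A) (fun p => {z p.1})
    (fun p => γ p.2 '' Icc (0 : ℝ) 1) (fun _ => isCompact_singleton) (fun p => harc p.2)
  obtain ⟨ε, hε0, hεa, hεb⟩ : ∃ ε : ℝ, 0 < ε ∧ ε ≤ ε1 / 2 ∧ ε ≤ ε2 :=
    ⟨min (ε1 / 2) ε2, lt_min (by linarith) hε2, min_le_left _ _, min_le_right _ _⟩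
  have hball : ∀ x y, x ≠ y → Disjoint (Metric.closedBall (z x) ε) (Metric.closedBall (z y) ε) := by
    intro x y hxy
    rw [Set.disjoint_left]
    intro w hz1 hz2
    rw [Metric.mem_closedBall] at hz1 hz2
    have h1 := hε1' (x, y) (by
      rw [Set.disjoint_singleton]
      exact fun h => hxy (hP.inj h)) (z x) rfl (z y) rfl
    have h2 : dist (z x) (z y) ≤ dist (z x) w + dist w (z y) := dist_triangle _ _ _
    rw [dist_comm (z x) w] at h2
    linarith
  have hballarc : ∀ a x, x ≠ s a → x ≠ t a →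
      Disjoint (γ a '' Icc (0 : ℝ) 1) (Metric.closedBall (z x) ε) := by
    intro a x hxa hxb
    rw [Set.disjoint_left]
    intro w hz1 hz2
    rw [Metric.mem_closedBall] at hz2
    have h1 := hε2' (x, a) (by
      rw [Set.disjoint_singleton_left]
      exact hoff a x hxa hxb) (z x) rfl w hz1
    rw [dist_comm] at hz2
    linarith
  -- the parameters
  have hpar : ∀ a, ∃ r1 r2 : ℝ, 0 < r1 ∧ r1 ≤ r2 ∧ r2 < 1 ∧ γ a r1 ∈ Metric.closedBall (z (s a)) ε ∧
      γ a r2 ∈ Metric.closedBall (z (t a)) ε := by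
    intro a
    have c0 := (hP.cont a) 0 ⟨le_rfl, zero_le_one⟩
    have c1 := (hP.cont a) 1 ⟨zero_le_one, le_rfl⟩
    rw [Metric.continuousWithinAt_iff] at c0 c1
    obtain ⟨d0, hd0, hd0'⟩ := c0 ε hε0
    obtain ⟨d1, hd1, hd1'⟩ := c1 ε hε0
    have hs0 : 0 < min (d0 / 2) (1 / 2) := lt_min (by linarith) (by norm_num)
    have hs1 : 0 < min (d1 / 2) (1 / 2) := lt_min (by linarith) (by norm_num)
    have hs0' : min (d0 / 2) (1 / 2) ≤ 1 / 2 := min_le_right _ _
    have hs1' : min (d1 / 2) (1 / 2) ≤ 1 / 2 := min_le_right _ _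
    refine ⟨min (d0 / 2) (1 / 2), 1 - min (d1 / 2) (1 / 2), hs0, by linarith, by linarith, ?_, ?_⟩
    · rw [Metric.mem_closedBall, ← hP.start a]
      refine (hd0' ⟨hs0.le, by linarith⟩ ?_).le
      rw [Real.dist_eq, sub_zero, abs_of_pos hs0]
      exact lt_of_le_of_lt (min_le_left _ _) (by linarith)
    · rw [Metric.mem_closedBall, ← hP.stop a]
      refine (hd1' ⟨by linarith, by linarith⟩ ?_).le
      rw [Real.dist_eq, show 1 - min (d1 / 2) (1 / 2) - 1 = - min (d1 / 2) (1 / 2) by ring,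
        abs_neg, abs_of_pos hs1]
      exact lt_of_le_of_lt (min_le_left _ _) (by linarith)
  choose r1 r2 hs0 hst ht1 hsa htb using hpar
  have hsub : ∀ a, Icc (r1 a) (r2 a) ⊆ Icc (0 : ℝ) 1 := fun a =>
    Icc_subset_Icc (hs0 a).le (ht1 a).le
  refine ⟨fun x => Metric.closedBall (z x) ε, fun a => γ a '' Icc (r1 a) (r2 a), ?_, ?_, hball,
    ?_, ?_, ?_⟩
  · exact fun x => ⟨isCompact_closedBall _ _, (convex_closedBall _ _).isPreconnected,
      ⟨z x, Metric.mem_closedBall_self hε0.le⟩⟩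
  · exact fun a => ⟨isCompact_Icc.image_of_continuousOn ((hP.cont a).mono (hsub a)),
      isPreconnected_Icc.image _ ((hP.cont a).mono (hsub a))⟩
  · intro a b hab
    rw [Set.disjoint_left]
    rintro w ⟨u, hu, rfl⟩ ⟨v, hv, hv2⟩
    rcases hend a u (hsub a hu) (hP.disj a b hab u (hsub a hu) v (hsub b hv) hv2.symm) with h | h
    · have := hs0 a
      have := hu.1
      linarith
    · have := ht1 a
      have := hu.2
      linarith
  · exact fun a x h1 h2 => (hballarc a x h1 h2).mono_left (image_mono (hsub a))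
  · exact fun a => ⟨⟨γ a (r1 a), ⟨r1 a, ⟨le_rfl, hst a⟩, rfl⟩, hsa a⟩,
      ⟨γ a (r2 a), ⟨r2 a, ⟨hst a, le_rfl⟩, rfl⟩, htb a⟩⟩

end Pool.Agent.Lib.MP_1fca17_co.Top
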