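import Mathlib
import Pool.Agent.Lib.MP_1fca17_co.Q.Defs

/-!
# MP_1fca17_co : simple drawings by Jordan arcs, and the bridge to plane maps

Definitions of the problem file (drawings by Jordan arcs) and the statements of the modules of the
bridge.  Proofs on paper: team store `TOP_page.md`.  Every module takes the statements that it uses
as hypotheses.
-/

namespace Pool.Agent.Lib.MP_1fca17_co.Top

open Set
open scoped Classical
open Pool.Agent.Lib.MP_1fca17_co (GenPos sg)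
open Pool.Agent.Lib.MP_1fca17_co.Q (PlaneMap KPlanar edgeSeg)

noncomputable section

/-! ## 1. Drawings by Jordan arcs -/

/-- `A` is a Jordan arc with the endpoints `p` and `q`. -/
def IsArc (p q : ℝ × ℝ) (A : Set (ℝ × ℝ)) : Prop :=
  ∃ γ : ℝ → ℝ × ℝ, ContinuousOn γ (Icc 0 1) ∧ InjOn γ (Icc 0 1) ∧ γ 0 = p ∧ γ 1 = q ∧
    γ '' Icc 0 1 = A

/-- `z` is a proper crossing of `A` and `B`: a homeomorphism of an open set around `z` onto an
open set around the origin carries `A` to the vertical and `B` to the horizontal axis. -/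
def ProperCrossing (A B : Set (ℝ × ℝ)) (z : ℝ × ℝ) : Prop :=
  ∃ h : OpenPartialHomeomorph (ℝ × ℝ) (ℝ × ℝ), z ∈ h.source ∧ h z = 0 ∧
    ∀ w ∈ h.source, (w ∈ A ↔ (h w).1 = 0) ∧ (w ∈ B ↔ (h w).2 = 0)

/-- A simple drawing of `G`: the vertices are distinct points of the plane, every edge is a Jordan
arc that joins its two endpoints and passes through no other vertex, two edges have at most one
common point, which is a common endpoint or a proper crossing, and no three edges pass through one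
crossing point. -/
structure SimpleDrawing {V : Type} (G : SimpleGraph V) where
  pos : V → ℝ × ℝ
  arc : Sym2 V → Set (ℝ × ℝ)
  pos_inj : Function.Injective pos
  isArc : ∀ u v, G.Adj u v → IsArc (pos u) (pos v) (arc s(u, v))
  avoid : ∀ u v w, G.Adj u v → pos w ∈ arc s(u, v) → w = u ∨ w = v
  once : ∀ e ∈ G.edgeSet, ∀ f ∈ G.edgeSet, e ≠ f → (arc e ∩ arc f).Subsingleton
  proper : ∀ e ∈ G.edgeSet, ∀ f ∈ G.edgeSet, e ≠ f → ∀ z ∈ arc e ∩ arc f,
    (∃ v, v ∈ e ∧ v ∈ f ∧ z = pos v) ∨ ProperCrossing (arc e) (arc f) z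
  three : ∀ e ∈ G.edgeSet, ∀ f ∈ G.edgeSet, ∀ g ∈ G.edgeSet, e ≠ f → e ≠ g → f ≠ g →
    ∀ z ∈ arc e ∩ arc f ∩ arc g, z ∈ range pos

/-- The edges `e` and `f` cross: they have a common point that is not a vertex. -/
def SimpleDrawing.Crosses {V : Type} {G : SimpleGraph V} (D : SimpleDrawing G)
    (e f : Sym2 V) : Prop :=
  e ∈ G.edgeSet ∧ f ∈ G.edgeSet ∧ e ≠ f ∧ ∃ z ∈ D.arc e ∩ D.arc f, z ∉ range D.pos

/-- `G` is k-planar: it has a simple drawing in which every edge has at most `k` crossings. -/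
def IsKPlanar {V : Type} (k : ℕ) (G : SimpleGraph V) : Prop :=
  ∃ D : SimpleDrawing G, ∀ e ∈ G.edgeSet, {f | D.Crosses e f}.encard ≤ k

/-- `G` is r-quasiplanar: it has a simple drawing without `r` pairwise crossing edges. -/
def IsQuasiplanar {V : Type} (r : ℕ) (G : SimpleGraph V) : Prop :=
  ∃ D : SimpleDrawing G, ¬ ∃ F : Finset (Sym2 V), F.card = r ∧ (∀ e ∈ F, e ∈ G.edgeSet) ∧
    ∀ e ∈ F, ∀ f ∈ F, e ≠ f → D.Crosses e f

/-! ## 2. Straight-line drawings -/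

/-- REAL -/
def StReal : Prop := ∀ (V : Type) [Fintype V] (G : SimpleGraph V) (P : V → ℝ × ℝ), GenPos P →
  ∃ D : SimpleDrawing G, ∀ e f, D.Crosses e f → (edgeSeg P e ∩ edgeSeg P f).Nonempty

/-- CHART: two segments that are not parallel and have a common inner point cross properly. -/
def StChart : Prop := ∀ (p q r s z : ℝ × ℝ), z ∈ openSegment ℝ p q → z ∈ openSegment ℝ r s →
  (q.1 - p.1) * (s.2 - r.2) ≠ (q.2 - p.2) * (s.1 - r.1) →
  ProperCrossing (segment ℝ p q) (segment ℝ r s) z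

/-! ## 3. From a drawing to a plane map -/

/-- A family of curves `γ a` (`a : A`) from the point `z (s a)` to the point `z (t a)`, which have
only the points `z x` in common and meet these only in their ends. -/
structure Pieces {X A : Type} (z : X → ℝ × ℝ) (s t : A → X) (γ : A → ℝ → ℝ × ℝ) : Prop where
  inj : Function.Injective z
  cont : ∀ a, ContinuousOn (γ a) (Icc 0 1)
  start : ∀ a, γ a 0 = z (s a)
  stop : ∀ a, γ a 1 = z (t a)
  ne : ∀ a, s a ≠ t a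
  inner : ∀ a, ∀ r ∈ Ioo (0 : ℝ) 1, γ a r ∉ range z
  disj : ∀ a b, a ≠ b → ∀ r ∈ Icc (0 : ℝ) 1, ∀ r' ∈ Icc (0 : ℝ) 1, γ a r = γ b r' →
    γ a r ∈ range z

/-- SORT: adjacent members of a sorted list are consecutive. -/
def StSort : Prop := ∀ L : List ℝ, L.Pairwise (· < ·) →
  L.IsChain (fun a b => a ∈ L ∧ b ∈ L ∧ a < b ∧ ∀ c ∈ L, ¬ (a < c ∧ c < b))

/-- SPLIT: the planarization of a drawing, cut into pieces. -/
def StSplit : Prop := ∀ (V : Type) [Fintype V] (G : SimpleGraph V) (k : ℕ), IsKPlanar k G →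
  ∃ (X A : Type) (_ : Fintype X) (_ : Fintype A) (z : X → ℝ × ℝ) (s t : A → X)
    (γ : A → ℝ → ℝ × ℝ) (ι : V → X) (path : V → V → List X), Pieces z s t γ ∧
    Function.Injective ι ∧
    (∀ u v, G.Adj u v → (path u v).length ≤ k ∧ (∀ x ∈ path u v, x ∉ range ι) ∧
      path v u = (path u v).reverse ∧
      List.IsChain (fun x y => ∃ a, (s a = x ∧ t a = y) ∨ (s a = y ∧ t a = x))
        (ι u :: (path u v ++ [ι v]))) ∧
    ∀ x, x ∉ range ι →
      Set.ncard {e : Sym2 V | ∃ u v, e = s(u, v) ∧ G.Adj u v ∧ x ∈ path u v} ≤ 2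

/-- BALL: disjoint compact connected sets instead of the points and the pieces. -/
def StBall : Prop := ∀ (X A : Type) [Fintype X] [Fintype A] (z : X → ℝ × ℝ) (s t : A → X)
  (γ : A → ℝ → ℝ × ℝ), Pieces z s t γ →
  ∃ (K : X → Set (ℝ × ℝ)) (L : A → Set (ℝ × ℝ)),
    (∀ x, IsCompact (K x) ∧ IsPreconnected (K x) ∧ (K x).Nonempty) ∧
    (∀ a, IsCompact (L a) ∧ IsPreconnected (L a)) ∧
    (∀ x y, x ≠ y → Disjoint (K x) (K y)) ∧
    (∀ a b, a ≠ b → Disjoint (L a) (L b)) ∧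
    (∀ a x, x ≠ s a → x ≠ t a → Disjoint (L a) (K x)) ∧
    ∀ a, (L a ∩ K (s a)).Nonempty ∧ (L a ∩ K (t a)).Nonempty

/-- The neighbours in the square grid. -/
def GAdj (p q : ℤ × ℤ) : Prop :=
  (p.1 = q.1 ∧ |p.2 - q.2| = 1) ∨ (p.2 = q.2 ∧ |p.1 - q.1| = 1)

/-- `S` is connected inside itself for the relation `R`. -/
def Conn {W : Type} (R : W → W → Prop) (S : Set W) : Prop :=
  ∀ x ∈ S, ∀ y ∈ S, Relation.ReflTransGen (fun a b => a ∈ S ∧ b ∈ S ∧ R a b) x y

/-- CELL: compact connected sets become connected sets of cells of a fine square grid. -/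
def StCell : Prop := ∀ (I : Type) [Fintype I] (K : I → Set (ℝ × ℝ)),
  (∀ i, IsCompact (K i)) → (∀ i, IsPreconnected (K i)) →
  ∃ C : I → Set (ℤ × ℤ), (∀ i, (C i).Finite) ∧ (∀ i, Conn GAdj (C i)) ∧
    (∀ i j, Disjoint (K i) (K j) → Disjoint (C i) (C j)) ∧
    ∀ i j, (K i ∩ K j).Nonempty → (C i ∩ C j).Nonempty

/-- MINOR: branch sets and connecting sets become a minor model. -/
def StMinor : Prop := ∀ (W X A : Type) (R : W → W → Prop) (B : X → Set W)
  (C : A → Set W) (s t : A → X), (∀ p q, R p q → R q p) →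
  (∀ x, (B x).Nonempty) → (∀ x, Conn R (B x)) → (∀ a, Conn R (C a)) →
  (∀ x y, x ≠ y → Disjoint (B x) (B y)) → (∀ a b, a ≠ b → Disjoint (C a) (C b)) →
  (∀ a x, x ≠ s a → x ≠ t a → Disjoint (C a) (B x)) → (∀ a, s a ≠ t a) →
  (∀ a, (C a ∩ B (s a)).Nonempty ∧ (C a ∩ B (t a)).Nonempty) →
  ∃ B' : X → Set W, (∀ x, B x ⊆ B' x) ∧ (∀ x, B' x ⊆ B x ∪ ⋃ a, C a) ∧
    (∀ x, Conn R (B' x)) ∧ (∀ x y, x ≠ y → Disjoint (B' x) (B' y)) ∧
    ∀ a, ∃ p ∈ B' (s a), ∃ q ∈ B' (t a), R p q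

/-- SKIP: `swap x (φ x) * φ` fixes `x` and is `φ` without `x` on the rest. -/
def StSkip : Prop := ∀ (D : Type) [Fintype D] (φ : Equiv.Perm D) (x : D), φ x ≠ x →
  (∀ d d', (Equiv.swap x (φ x) * φ).SameCycle d d' ↔
    d = d' ∨ (d ≠ x ∧ d' ≠ x ∧ φ.SameCycle d d')) ∧
  Nat.card (Quotient (Equiv.Perm.SameCycle.setoid (Equiv.swap x (φ x) * φ))) =
    Nat.card (Quotient (Equiv.Perm.SameCycle.setoid φ)) + 1

/-- MERGE: `swap x y * σ` merges the two cycles of `x` and `y`. -/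
def StMerge : Prop := ∀ (D : Type) [Fintype D] (σ : Equiv.Perm D) (x y : D),
  ¬ σ.SameCycle x y → ∀ d d', (Equiv.swap x y * σ).SameCycle d d' ↔
    σ.SameCycle d d' ∨ ((σ.SameCycle x d ∨ σ.SameCycle y d) ∧
      (σ.SameCycle x d' ∨ σ.SameCycle y d'))

/-- PINCH: the two ends of a dart are identified; the dart becomes a loop. -/
def StPinch : Prop := ∀ (X D Y : Type) [Fintype X] [Fintype D] [Fintype Y] (M : PlaneMap X D)
  (c : X → Y) (d : D), Function.Surjective c → M.vert d ≠ M.vert (M.α d) →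
  (∀ x x', c x = c x' ↔ x = x' ∨ (x = M.vert d ∧ x' = M.vert (M.α d)) ∨
    (x = M.vert (M.α d) ∧ x' = M.vert d)) →
  ∃ M' : PlaneMap Y D, (∀ e, M'.vert e = c (M.vert e)) ∧ M'.α = M.α

/-- QUOT: connected classes of vertices are identified. -/
def StQuot : Prop := ∀ (X D Y : Type) [Fintype X] [Fintype D] [Fintype Y] (M : PlaneMap X D)
  (c : X → Y), Function.Surjective c → (∀ y, Conn M.Adj {x | c x = y}) →
  ∃ M' : PlaneMap Y D, ∀ x x', M.Adj x x' → M'.Adj (c x) (c x')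

/-- GRID: a plane map that contains the square grid of side `2 n + 1`. -/
def StGridMap : Prop := ∀ n : ℕ, ∃ (X D : Type) (_ : Fintype X) (_ : Fintype D)
  (M : PlaneMap X D) (g : ℤ × ℤ → X), InjOn g {p | |p.1| ≤ n ∧ |p.2| ≤ n} ∧
  ∀ p q : ℤ × ℤ, |p.1| ≤ n ∧ |p.2| ≤ n → |q.1| ≤ n ∧ |q.2| ≤ n → GAdj p q →
    M.Adj (g p) (g q)

/-- BRIDGE -/
def StBridge : Prop := ∀ (V : Type) [Fintype V] (G : SimpleGraph V) (k : ℕ), IsKPlanar k G →
  KPlanar k G

/-! ## 4. The final statement -/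

/-- The theorem for plane maps and straight-line drawings, with the bound `f k`. -/
def MainFor (f : ℕ → ℕ) : Prop := ∀ (V : Type) [Fintype V] (k : ℕ), 1 ≤ k →
  ∀ G : SimpleGraph V, KPlanar k G → ∃ P : V → ℝ × ℝ, GenPos P ∧ ∀ F : Finset (Sym2 V),
    (∀ e ∈ F, e ∈ G.edgeSet) →
    (∀ e ∈ F, ∀ f ∈ F, e ≠ f → (edgeSeg P e ∩ edgeSeg P f).Nonempty) → F.card ≤ f k

/-- FINAL: from the bridge and the theorem for plane maps to the question, word for word. -/
def StFinal : Prop := StReal → StBridge → ∀ (f : ℕ → ℕ) (C : ℝ),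
  (∀ k, 1 ≤ k → (f k : ℝ) ≤ C * (k : ℝ) ^ (13 / 14 : ℝ)) → MainFor f →
  ∃ g : ℕ → ℕ, (∀ k, 2 ≤ g k) ∧
    Filter.Tendsto (fun k : ℕ => (g k : ℝ) / k) Filter.atTop (nhds 0) ∧
    (∃ C' : ℝ, ∀ k, 1 ≤ k → (g k : ℝ) ≤ C' * (k : ℝ) ^ (13 / 14 : ℝ)) ∧
    ∀ (k : ℕ) (V : Type) [Fintype V] (G : SimpleGraph V), IsKPlanar k G → IsQuasiplanar (g k) G

end

end Pool.Agent.Lib.MP_1fca17_co.Top
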