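import Mathlib
import Pool.Agent.Lib.MP_1fca17_co.Top.Defs

/-!
# MP_1fca17_co : BRIDGE (helper32, second key)
-/

namespace Pool.Agent.Lib.MP_1fca17_co.Top.Bridge32

open Set
open scoped Classical
open Pool.Agent.Lib.MP_1fca17_co.Q (PlaneMap KPlanar edgeSeg)

noncomputable section

theorem gadj_symm (p q : ℤ × ℤ) (h : GAdj p q) : GAdj q p := by
  rcases h with ⟨h1, h2⟩ | ⟨h1, h2⟩
  · exact Or.inl ⟨h1.symm, by rw [abs_sub_comm]; exact h2⟩
  · exact Or.inr ⟨h1.symm, by rw [abs_sub_comm]; exact h2⟩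

theorem adj_symm {X D : Type} [Fintype X] [Fintype D] (M : PlaneMap X D) {x y : X}
    (h : M.Adj x y) : M.Adj y x := by
  obtain ⟨d, hd, hd'⟩ := h
  exact ⟨M.α d, hd', by rw [M.invol]; exact hd⟩

theorem rtg_lift {A B : Type} {r : A → A → Prop} {p : B → B → Prop} (f : A → B)
    (h : ∀ a b, r a b → p (f a) (f b)) {a b : A} (hab : Relation.ReflTransGen r a b) :
    Relation.ReflTransGen p (f a) (f b) := by
  induction hab with
  | refl => exact Relation.ReflTransGen.refl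
  | tail _ hbc ih => exact ih.tail (h _ _ hbc)

theorem box {S : Set (ℤ × ℤ)} (hS : S.Finite) : ∃ n : ℕ, ∀ p ∈ S, |p.1| ≤ n ∧ |p.2| ≤ n := by
  refine ⟨∑ p ∈ hS.toFinset, (p.1.natAbs + p.2.natAbs), ?_⟩
  intro p hp
  have h1 : p.1.natAbs + p.2.natAbs ≤ ∑ p ∈ hS.toFinset, (p.1.natAbs + p.2.natAbs) :=
    Finset.single_le_sum (f := fun p : ℤ × ℤ => p.1.natAbs + p.2.natAbs)
      (fun _ _ => Nat.zero_le _) (hS.mem_toFinset.2 hp)
  rw [Int.abs_eq_natAbs, Int.abs_eq_natAbs]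
  constructor <;> omega

theorem stBridge (hsp : StSplit) (hba : StBall) (hce : StCell) (hmi : StMinor) (hqu : StQuot)
    (hgr : StGridMap) : StBridge := by
  intro V _ G k hG
  obtain ⟨X, A, _, _, z, s, t, γ, ι, path, hp, hι, hpath, hcnt⟩ := hsp V G k hG
  obtain ⟨K, L, hK, hL, hKK, hLL, hLK, hmeet⟩ := hba X A z s t γ hp
  obtain ⟨C, hfin, hconn, hdis, hmt⟩ := hce (X ⊕ A) (Sum.elim K L)
    (by rintro (x | a); exacts [(hK x).1, (hL a).1])
    (by rintro (x | a); exacts [(hK x).2.1, (hL a).2])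
  obtain ⟨B', hB1, hB2, hB3, hB4, hB5⟩ := hmi (ℤ × ℤ) X A GAdj (fun x => C (Sum.inl x))
    (fun a => C (Sum.inr a)) s t gadj_symm
    (by
      intro x
      obtain ⟨w, hw, _⟩ := hmt (Sum.inl x) (Sum.inl x) (by
        obtain ⟨w, hw⟩ := (hK x).2.2
        exact ⟨w, hw, hw⟩)
      exact ⟨w, hw⟩)
    (fun x => hconn _) (fun a => hconn _)
    (fun x y hxy => hdis _ _ (hKK x y hxy)) (fun a b hab => hdis _ _ (hLL a b hab))
    (fun a x h1 h2 => hdis _ _ (hLK a x h1 h2)) hp.ne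
    (fun a => ⟨hmt (Sum.inr a) (Sum.inl (s a)) (hmeet a).1,
      hmt (Sum.inr a) (Sum.inl (t a)) (hmeet a).2⟩)
  have hBne : ∀ x, (B' x).Nonempty := by
    intro x
    obtain ⟨w, hw, _⟩ := hmt (Sum.inl x) (Sum.inl x) (by
      obtain ⟨w, hw⟩ := (hK x).2.2
      exact ⟨w, hw, hw⟩)
    exact ⟨w, hB1 x hw⟩
  obtain ⟨n, hn⟩ := box (S := ⋃ x, B' x) (by
    refine Set.Finite.subset (s := (⋃ x, C (Sum.inl x)) ∪ ⋃ a, C (Sum.inr a))
      ((finite_iUnion fun x => hfin _).union (finite_iUnion fun a => hfin _)) ?_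
    refine iUnion_subset fun x => (hB2 x).trans ?_
    exact union_subset_union_left _ (subset_iUnion (fun x => C (Sum.inl x)) x))
  have hbox : ∀ x, ∀ p ∈ B' x, |p.1| ≤ n ∧ |p.2| ≤ n := fun x p hpx =>
    hn p (mem_iUnion.2 ⟨x, hpx⟩)
  obtain ⟨X0, D0, _, _, M0, g, hginj, hgadj⟩ := hgr n
  -- the classes
  let P : X → Set X0 := fun x => g '' B' x
  have hPu : ∀ x y w, w ∈ P x → w ∈ P y → x = y := by
    rintro x y w ⟨p, hpx, rfl⟩ ⟨q, hqy, hqp⟩
    by_contra hxy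
    have h1 : q = p := hginj (hbox y q hqy) (hbox x p hpx) hqp
    rw [h1] at hqy
    exact Set.disjoint_left.1 (hB4 x y hxy) hpx hqy
  let Y : Type := X ⊕ {w : X0 // ∀ x, w ∉ P x}
  let c : X0 → Y := fun w => if h : ∃ x, w ∈ P x then Sum.inl h.choose else
    Sum.inr ⟨w, fun x hx => h ⟨x, hx⟩⟩
  have hc1 : ∀ x w, w ∈ P x → c w = Sum.inl x := by
    intro x w hw
    have h : ∃ x, w ∈ P x := ⟨x, hw⟩
    simp only [c, dif_pos h]
    exact congrArg Sum.inl (hPu _ _ w h.choose_spec hw)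
  have hc2 : ∀ w (h : ∀ x, w ∉ P x), c w = Sum.inr ⟨w, h⟩ := by
    intro w h
    have h' : ¬ ∃ x, w ∈ P x := fun ⟨x, hx⟩ => h x hx
    simp only [c, dif_neg h']
  have : Fintype Y := Fintype.ofFinite Y
  obtain ⟨M, hM⟩ := hqu X0 D0 Y M0 c
    (by
      rintro (x | ⟨w, hw⟩)
      · obtain ⟨p, hpx⟩ := hBne x
        exact ⟨g p, hc1 x _ ⟨p, hpx, rfl⟩⟩
      · exact ⟨w, hc2 w hw⟩)
    (by
      rintro (x | ⟨w, hw⟩)
      · have hcl : ∀ u, c u = Sum.inl x → u ∈ P x := by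
          intro u hu
          by_cases h : ∃ y, u ∈ P y
          · obtain ⟨y, hy⟩ := h
            rw [hc1 y u hy] at hu
            rw [← Sum.inl_injective hu]
            exact hy
          · rw [hc2 u (fun y hy => h ⟨y, hy⟩)] at hu
            exact absurd hu (by simp)
        intro u hu v hv
        obtain ⟨p, hpx, rfl⟩ := hcl u hu
        obtain ⟨q, hqx, rfl⟩ := hcl v hv
        refine rtg_lift g ?_ (hB3 x p hpx q hqx)
        rintro a b ⟨ha, hb, hab⟩
        exact ⟨hc1 x _ ⟨a, ha, rfl⟩, hc1 x _ ⟨b, hb, rfl⟩,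
          hgadj a b (hbox x a ha) (hbox x b hb) hab⟩
      · have hcl : ∀ u, c u = Sum.inr ⟨w, hw⟩ → u = w := by
          intro u hu
          by_cases h : ∃ y, u ∈ P y
          · obtain ⟨y, hy⟩ := h
            rw [hc1 y u hy] at hu
            exact absurd hu (by simp)
          · rw [hc2 u (fun y hy => h ⟨y, hy⟩)] at hu
            exact Subtype.ext_iff.1 (Sum.inr_injective hu)
        intro u hu v hv
        rw [hcl u hu, hcl v hv])
  have hadj : ∀ a, M.Adj (Sum.inl (s a)) (Sum.inl (t a)) := by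
    intro a
    obtain ⟨p, hpa, q, hqa, hpq⟩ := hB5 a
    have h1 := hM _ _ (hgadj p q (hbox _ p hpa) (hbox _ q hqa) hpq)
    rwa [hc1 (s a) _ ⟨p, hpa, rfl⟩, hc1 (t a) _ ⟨q, hqa, rfl⟩] at h1
  refine ⟨Y, D0, inferInstance, inferInstance, M, fun v => Sum.inl (ι v),
    fun u v => (path u v).map Sum.inl, fun u v h => hι (Sum.inl_injective h), ?_, ?_⟩
  · intro u v huv
    obtain ⟨h1, h2, h3, h4⟩ := hpath u v huv
    refine ⟨by rw [List.length_map]; exact h1, ?_, ?_, ?_⟩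
    · intro x hx hr
      obtain ⟨x0, hx0, rfl⟩ := List.mem_map.1 hx
      obtain ⟨v', hv'⟩ := hr
      exact h2 x0 hx0 ⟨v', Sum.inl_injective hv'⟩
    · change (path v u).map Sum.inl = ((path u v).map Sum.inl).reverse
      rw [h3, List.map_reverse]
    · have h5 : (Sum.inl (ι u) : Y) :: (List.map Sum.inl (path u v) ++ [Sum.inl (ι v)]) =
          List.map (Sum.inl : X → Y) (ι u :: (path u v ++ [ι v])) := by
        simp
      rw [h5, List.isChain_map]
      refine h4.imp ?_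
      rintro x y ⟨a, ⟨rfl, rfl⟩ | ⟨rfl, rfl⟩⟩
      · exact hadj a
      · exact adj_symm M (hadj a)
  · rintro (x | w) hx
    · have h1 : x ∉ range ι := fun ⟨v, hv⟩ => hx ⟨v, congrArg Sum.inl hv⟩
      refine le_trans (le_of_eq ?_) (hcnt x h1)
      congr 1
      ext e
      constructor
      · rintro ⟨u, v, h2, h3, h4⟩
        obtain ⟨x0, hx0, h5⟩ := List.mem_map.1 h4
        rw [Sum.inl_injective h5] at hx0
        exact ⟨u, v, h2, h3, hx0⟩
      · rintro ⟨u, v, h2, h3, h4⟩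
        exact ⟨u, v, h2, h3, List.mem_map_of_mem h4⟩
    · have h1 : {e : Sym2 V | ∃ u v, e = s(u, v) ∧ G.Adj u v ∧
          (Sum.inr w : Y) ∈ (path u v).map Sum.inl} = ∅ := by
        ext e
        simp only [mem_empty_iff_false, iff_false]
        rintro ⟨u, v, _, _, h4⟩
        obtain ⟨x0, _, h5⟩ := List.mem_map.1 h4
        exact absurd h5 (by simp)
      have h2 : Set.ncard {e : Sym2 V | ∃ u v, e = s(u, v) ∧ G.Adj u v ∧
          (Sum.inr w : Y) ∈ (path u v).map Sum.inl} = 0 := by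
        rw [h1, ncard_empty]
      exact le_trans (le_of_eq h2) (Nat.zero_le _)

end

end Pool.Agent.Lib.MP_1fca17_co.Top.Bridge32
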