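import Mathlib
import Pool.Agent.Lib.MP_1fca17_co.Top.Defs
import Pool.Agent.Lib.MP_1fca17_co.T.Cells20

/-!
# MP_1fca17_co : row CELL (helper20)
-/

namespace Pool.Agent.Lib.MP_1fca17_co.Top

open Set
open Pool.Agent.Lib.MP_1fca17_co.T (cells SideAdj cells_connected finite_cells disjoint_cells
  exists_sep exists_cell subset_cells)

theorem gadj_of_side {q q' : ℤ × ℤ} (h : SideAdj q q') : GAdj q q' := by
  unfold SideAdj at h
  unfold GAdj
  rcases h with ⟨h1, h2 | h2⟩ | ⟨h1, h2 | h2⟩
  · right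
    refine ⟨h1, ?_⟩
    rw [h2, abs_eq (by norm_num)]
    right
    ring
  · right
    refine ⟨h1, ?_⟩
    rw [h2, abs_eq (by norm_num)]
    left
    ring
  · left
    refine ⟨h1, ?_⟩
    rw [h2, abs_eq (by norm_num)]
    right
    ring
  · left
    refine ⟨h1, ?_⟩
    rw [h2, abs_eq (by norm_num)]
    left
    ring

theorem stCell : StCell := by
  intro I _ K hK hc
  obtain ⟨δ, hδ, hsep⟩ := exists_sep K hK
  refine ⟨fun i => cells δ (K i), fun i => finite_cells hδ (hK i).isBounded, ?_, ?_, ?_⟩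
  · intro i x hx y hy
    have h := cells_connected hδ (hc i) (hK i).isBounded hx hy
    clear hy
    induction h with
    | refl => exact Relation.ReflTransGen.refl
    | tail _ h2 ih => exact ih.tail ⟨h2.1, h2.2.1, gadj_of_side h2.2.2⟩
  · intro i j hij
    exact disjoint_cells (hsep i j hij)
  · rintro i j ⟨z, hzi, hzj⟩
    obtain ⟨q, hq⟩ := exists_cell hδ z
    exact ⟨q, subset_cells hzi hq, subset_cells hzj hq⟩

end Pool.Agent.Lib.MP_1fca17_co.Top
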