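import Mathlib
import Pool.Agent.Lib.MP_1fca17_co.Top.Defs
import Pool.Agent.Lib.MP_1fca17_co.T.Grid99

/-!
# MP_1fca17_co : row GRID of ROOM TOP
-/

namespace Pool.Agent.Lib.MP_1fca17_co.Top.GridMap99

open Set
open scoped Classical
open Pool.Agent.Lib.MP_1fca17_co.Q (PlaneMap)
open Pool.Agent.Lib.MP_1fca17_co.T.Grid99

noncomputable section

theorem adj_symm {X D : Type} [Fintype X] [Fintype D] (M : PlaneMap X D) {x y : X}
    (h : M.Adj x y) : M.Adj y x := by
  obtain ⟨d, h1, h2⟩ := h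
  exact ⟨M.α d, h2, by rw [M.invol]; exact h1⟩

/-- the row of a cell -/
def row (n : ℕ) (b : ℤ) : Fin (2 * n + 1) :=
  if h : (b + n).toNat < 2 * n + 1 then ⟨(b + n).toNat, h⟩ else 0

theorem row_val (n : ℕ) (b : ℤ) (hb : |b| ≤ n) : ((row n b : Fin (2 * n + 1)) : ℕ) =
    (b + n).toNat := by
  have h1 := abs_le.1 hb
  have h : (b + n).toNat < 2 * n + 1 := by omega
  simp [row, h]

theorem row_adj (n : ℕ) (i : ZMod (2 * n + 1)) (b : ℤ) (hb : |b| ≤ n) (hb' : |b + 1| ≤ n) :
    (grid (2 * n + 1) (2 * n)).Adj (i, row n b) (i, row n (b + 1)) := by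
  have h1 := abs_le.1 hb
  have h2 := abs_le.1 hb'
  have h : (b + n).toNat < 2 * n := by omega
  have := grid_adj_v (n := 2 * n + 1) (m := 2 * n) i ⟨(b + n).toNat, h⟩
  have e1 : row n b = (⟨(b + n).toNat, h⟩ : Fin (2 * n)).castSucc := by
    apply Fin.ext
    rw [row_val n b hb]
    simp
  have e2 : row n (b + 1) = (⟨(b + n).toNat, h⟩ : Fin (2 * n)).succ := by
    apply Fin.ext
    rw [row_val n _ hb']
    simp
    omega
  rw [e1, e2]
  exact this

theorem stGridMap : StGridMap := by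
  intro n
  refine ⟨GX (2 * n + 1) (2 * n), GD (2 * n + 1) (2 * n), inferInstance, inferInstance,
    grid (2 * n + 1) (2 * n), fun p => ((p.1 : ZMod (2 * n + 1)), row n p.2), ?_, ?_⟩
  · rintro ⟨a, b⟩ ⟨ha, hb⟩ ⟨a', b'⟩ ⟨ha', hb'⟩ h
    simp only [Prod.mk.injEq] at h ha hb ha' hb' ⊢
    obtain ⟨h1, h2⟩ := h
    constructor
    · rw [ZMod.intCast_eq_intCast_iff_dvd_sub] at h1
      have h3 := abs_le.1 ha
      have h4 := abs_le.1 ha'
      have h5 : a' - a = 0 := by
        apply Int.eq_zero_of_abs_lt_dvd h1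
        rw [abs_lt]
        push_cast
        constructor <;> omega
      omega
    · have h3 : ((row n b : Fin (2 * n + 1)) : ℕ) = ((row n b' : Fin (2 * n + 1)) : ℕ) := by
        rw [h2]
      rw [row_val n b hb, row_val n b' hb'] at h3
      have h4 := abs_le.1 hb
      have h5 := abs_le.1 hb'
      omega
  · rintro ⟨a, b⟩ ⟨a', b'⟩ ⟨ha, hb⟩ ⟨ha', hb'⟩ h
    simp only at ha hb ha' hb' ⊢
    rcases h with ⟨h1, h2⟩ | ⟨h1, h2⟩
    · simp only at h1 h2
      subst h1
      rcases (abs_eq (by norm_num : (0 : ℤ) ≤ 1)).1 h2 with h | h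
      · have hb1 : b = b' + 1 := by omega
        subst hb1
        exact adj_symm _ (row_adj n _ b' hb' hb)
      · have hb1 : b' = b + 1 := by omega
        subst hb1
        exact row_adj n _ b hb hb'
    · simp only at h1 h2
      subst h1
      rcases (abs_eq (by norm_num : (0 : ℤ) ≤ 1)).1 h2 with h | h
      · have hb1 : a = a' + 1 := by omega
        subst hb1
        refine adj_symm _ ?_
        push_cast
        exact grid_adj_h _ _
      · have hb1 : a' = a + 1 := by omega
        subst hb1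
        push_cast
        exact grid_adj_h _ _

end

end Pool.Agent.Lib.MP_1fca17_co.Top.GridMap99
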