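import Pool.Agent.Lib.MP_1fca17_co.Top.Defs
import Pool.Agent.Lib.MP_1fca17_co.T.Ident52

/-!
MP_1fca17_co, topological bridge: row QUOT (helper52), from `T/Ident52.lean`.
-/

namespace Pool.Agent.Lib.MP_1fca17_co.Top

theorem stQuot : StQuot := by
  intro X D Y _ _ _ M c hs hc
  obtain ⟨M', h1, h2⟩ := T52.contract (Fintype.card X) X M c rfl hs (by
    intro x y hxy
    have h := hc (c x) x rfl y hxy.symm
    induction h with
    | refl => exact Relation.ReflTransGen.refl
    | tail _ h3 ih =>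
      obtain ⟨ha, hb, hab⟩ := h3
      exact (ih (show c _ = c x from ha).symm).tail ⟨hab, (show c _ = c x from ha).trans (show c _ = c x from hb).symm⟩)
  refine ⟨M', ?_⟩
  rintro x x' ⟨d, rfl, rfl⟩
  exact ⟨d, h1 d, by rw [h2, h1]⟩

end Pool.Agent.Lib.MP_1fca17_co.Top
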