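import Mathlib
import Pool.Agent.Lib.MP_1fca17_co.Top.Defs

/-!
# MP_1fca17_co : adjacent members of a sorted list are consecutive
-/

namespace Pool.Agent.Lib.MP_1fca17_co.Top

open Set
open scoped Classical

theorem sort_aux64 : ∀ (suf pre : List ℝ), (pre ++ suf).Pairwise (· < ·) →
    suf.IsChain (fun a b => a ∈ pre ++ suf ∧ b ∈ pre ++ suf ∧ a < b ∧
      ∀ c ∈ pre ++ suf, ¬ (a < c ∧ c < b))
  | [], _, _ => List.IsChain.nil
  | [a], _, _ => List.IsChain.singleton a
  | a :: b :: l, pre, h => by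
    have h1 : pre ++ a :: b :: l = (pre ++ [a]) ++ b :: l := by simp
    have h2 := sort_aux64 (b :: l) (pre ++ [a]) (by rw [← h1]; exact h)
    rw [← h1] at h2
    rw [List.pairwise_append] at h
    obtain ⟨-, h3, h4⟩ := h
    rw [List.pairwise_cons, List.pairwise_cons] at h3
    refine List.IsChain.cons_cons ⟨by simp, by simp, h3.1 b (by simp), ?_⟩ h2
    rintro c hc ⟨h5, h6⟩
    rw [List.mem_append, List.mem_cons, List.mem_cons] at hc
    rcases hc with hc | hc | hc | hc
    · exact absurd (h4 c hc a (by simp)) (not_lt.2 h5.le)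
    · exact absurd h5 (by rw [hc]; exact lt_irrefl _)
    · exact absurd h6 (by rw [hc]; exact lt_irrefl _)
    · exact absurd (h3.2.1 c hc) (not_lt.2 h6.le)

/-- SORT -/
theorem stSort : StSort := fun L h => sort_aux64 L [] h

end Pool.Agent.Lib.MP_1fca17_co.Top
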