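import Mathlib
import Pool.Agent.Lib.MP_1fca17_co.Top.Defs

/-!
# MP_1fca17_co : the planarization of a drawing, cut into pieces
-/

namespace Pool.Agent.Lib.MP_1fca17_co.Top

open Set
open scoped Classical

noncomputable section

namespace Sp64

variable {V : Type} {G : SimpleGraph V}

/-- the crossing points -/
def Cr (D : SimpleDrawing G) : Set (ℝ × ℝ) :=
  {z | z ∉ range D.pos ∧ ∃ e ∈ G.edgeSet, ∃ f ∈ G.edgeSet, e ≠ f ∧ z ∈ D.arc e ∩ D.arc f}

/-- the vertices and the crossing points -/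
def Z (D : SimpleDrawing G) : Set (ℝ × ℝ) := range D.pos ∪ Cr D

theorem Z_finite [Finite V] (D : SimpleDrawing G) : (Z D).Finite := by
  refine (Set.finite_range _).union ?_
  have h : Cr D ⊆ ⋃ e ∈ G.edgeSet, ⋃ f ∈ {f | f ∈ G.edgeSet ∧ e ≠ f}, D.arc e ∩ D.arc f := by
    rintro z ⟨-, e, he, f, hf, hef, hz⟩
    exact mem_biUnion he (mem_biUnion (show f ∈ {f | f ∈ G.edgeSet ∧ e ≠ f} from ⟨hf, hef⟩) hz)
  refine Set.Finite.subset ?_ h
  exact Set.Finite.biUnion (Set.toFinite _) fun e he =>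
    Set.Finite.biUnion (Set.toFinite _) fun f hf => (D.once e he f hf.1 hf.2).finite

/-- a common point of two arcs is in `Z` -/
theorem mem_Z (D : SimpleDrawing G) {e f : Sym2 V} (he : e ∈ G.edgeSet) (hf : f ∈ G.edgeSet)
    (hef : e ≠ f) {z : ℝ × ℝ} (h1 : z ∈ D.arc e) (h2 : z ∈ D.arc f) : z ∈ Z D := by
  by_cases h : z ∈ range D.pos
  · exact Or.inl h
  · exact Or.inr ⟨h, e, he, f, hf, hef, h1, h2⟩

/-- orientations and parametrizations of the edges -/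
structure Dat (D : SimpleDrawing G) where
  o : Sym2 V → V × V
  γ : Sym2 V → ℝ → ℝ × ℝ
  ho : ∀ e, e = s((o e).1, (o e).2)
  cont : ∀ e ∈ G.edgeSet, ContinuousOn (γ e) (Icc 0 1)
  inj : ∀ e ∈ G.edgeSet, InjOn (γ e) (Icc 0 1)
  g0 : ∀ e ∈ G.edgeSet, γ e 0 = D.pos (o e).1
  g1 : ∀ e ∈ G.edgeSet, γ e 1 = D.pos (o e).2
  im : ∀ e ∈ G.edgeSet, γ e '' Icc 0 1 = D.arc e

theorem exists_dat (D : SimpleDrawing G) : Nonempty (Dat D) := by
  have h1 : ∀ e : Sym2 V, ∃ p : V × V, e = s(p.1, p.2) := fun e => by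
    induction e using Sym2.ind with
    | _ u v => exact ⟨(u, v), rfl⟩
  choose o ho using h1
  have h2 : ∀ e : Sym2 V, ∃ γ : ℝ → ℝ × ℝ, e ∈ G.edgeSet → (ContinuousOn γ (Icc 0 1) ∧
      InjOn γ (Icc 0 1) ∧ γ 0 = D.pos (o e).1 ∧ γ 1 = D.pos (o e).2 ∧
      γ '' Icc 0 1 = D.arc e) := by
    intro e
    by_cases he : e ∈ G.edgeSet
    · have h3 := he
      rw [ho e, SimpleGraph.mem_edgeSet] at h3
      obtain ⟨γ, h4⟩ := D.isArc _ _ h3
      rw [← ho e] at h4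
      exact ⟨γ, fun _ => h4⟩
    · exact ⟨fun _ => 0, fun h => absurd h he⟩
  choose γ hγ using h2
  exact ⟨⟨o, γ, ho, fun e he => (hγ e he).1, fun e he => (hγ e he).2.1,
    fun e he => (hγ e he).2.2.1, fun e he => (hγ e he).2.2.2.1,
    fun e he => (hγ e he).2.2.2.2⟩⟩

variable {D : SimpleDrawing G} (c : Dat D)

/-- the parameters of the points of `Z` on an edge -/
def T (e : Sym2 V) : Set ℝ := {r | r ∈ Icc (0 : ℝ) 1 ∧ c.γ e r ∈ Z D}

theorem T_finite [Finite V] {e : Sym2 V} (he : e ∈ G.edgeSet) : (T c e).Finite := by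
  refine Set.Finite.of_finite_image (f := c.γ e) ?_ fun r hr r' hr' h => c.inj e he hr.1 hr'.1 h
  refine (Z_finite D).subset ?_
  rintro _ ⟨r, hr, rfl⟩
  exact hr.2

theorem T0 {e : Sym2 V} (he : e ∈ G.edgeSet) : (0 : ℝ) ∈ T c e :=
  ⟨⟨le_rfl, zero_le_one⟩, Or.inl ⟨_, (c.g0 e he).symm⟩⟩

theorem T1 {e : Sym2 V} (he : e ∈ G.edgeSet) : (1 : ℝ) ∈ T c e :=
  ⟨⟨zero_le_one, le_rfl⟩, Or.inl ⟨_, (c.g1 e he).symm⟩⟩

/-- the same as a finite set -/
def TF (e : Sym2 V) : Finset ℝ := if h : (T c e).Finite then h.toFinset else ∅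

theorem mem_TF [Finite V] {e : Sym2 V} (he : e ∈ G.edgeSet) {r : ℝ} :
    r ∈ TF c e ↔ r ∈ T c e := by
  rw [TF, dif_pos (T_finite c he), Set.Finite.mem_toFinset]

/-- consecutive parameters -/
def Cons (e : Sym2 V) (r r' : ℝ) : Prop := e ∈ G.edgeSet ∧ r ∈ TF c e ∧ r' ∈ TF c e ∧ r < r' ∧
  ∀ t ∈ TF c e, ¬ (r < t ∧ t < r')

/-- the pieces -/
def AF [Fintype V] : Finset (Sym2 V × ℝ × ℝ) :=
  ((Finset.univ : Finset (Sym2 V)) ×ˢ ((Finset.univ.biUnion (TF c)) ×ˢ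
    (Finset.univ.biUnion (TF c)))).filter (fun a => Cons c a.1 a.2.1 a.2.2)

theorem mem_AF [Fintype V] {a : Sym2 V × ℝ × ℝ} : a ∈ AF c ↔ Cons c a.1 a.2.1 a.2.2 := by
  rw [AF, Finset.mem_filter, Finset.mem_product, Finset.mem_product, Finset.mem_biUnion,
    Finset.mem_biUnion]
  constructor
  · exact fun h => h.2
  · intro h
    exact ⟨⟨Finset.mem_univ _, ⟨a.1, Finset.mem_univ _, h.2.1⟩,
      ⟨a.1, Finset.mem_univ _, h.2.2.1⟩⟩, h⟩

/-- the point with the parameter `r` -/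
def fX (e : Sym2 V) (r : ℝ) : {p // p ∈ Z D} :=
  if h : c.γ e r ∈ Z D then ⟨c.γ e r, h⟩ else ⟨D.pos (c.o e).1, Or.inl ⟨_, rfl⟩⟩

theorem fX_val {e : Sym2 V} {r : ℝ} (h : r ∈ T c e) : (fX c e r).1 = c.γ e r := by
  rw [fX, dif_pos h.2]

/-- the pieces of the drawing -/
theorem pieces [Fintype V] : Pieces (X := {p // p ∈ Z D}) (A := {a // a ∈ AF c}) Subtype.val
    (fun a => fX c a.1.1 a.1.2.1) (fun a => fX c a.1.1 a.1.2.2)
    (fun a ρ => c.γ a.1.1 (a.1.2.1 + ρ * (a.1.2.2 - a.1.2.1))) := by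
  have key : ∀ a : {a // a ∈ AF c}, a.1.1 ∈ G.edgeSet ∧ a.1.2.1 ∈ T c a.1.1 ∧
      a.1.2.2 ∈ T c a.1.1 ∧ a.1.2.1 < a.1.2.2 ∧
      ∀ t ∈ T c a.1.1, ¬ (a.1.2.1 < t ∧ t < a.1.2.2) := by
    intro a
    obtain ⟨h1, h2, h3, h4, h5⟩ := (mem_AF c).1 a.2
    exact ⟨h1, (mem_TF c h1).1 h2, (mem_TF c h1).1 h3, h4, fun t ht => h5 t ((mem_TF c h1).2 ht)⟩
  have hmem : ∀ a : {a // a ∈ AF c}, ∀ ρ ∈ Icc (0 : ℝ) 1,
      a.1.2.1 ≤ a.1.2.1 + ρ * (a.1.2.2 - a.1.2.1) ∧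
      a.1.2.1 + ρ * (a.1.2.2 - a.1.2.1) ≤ a.1.2.2 := by
    intro a ρ hρ
    obtain ⟨-, -, -, h4, -⟩ := key a
    constructor <;> nlinarith [hρ.1, hρ.2]
  have hIcc : ∀ a : {a // a ∈ AF c}, ∀ ρ ∈ Icc (0 : ℝ) 1,
      a.1.2.1 + ρ * (a.1.2.2 - a.1.2.1) ∈ Icc (0 : ℝ) 1 := by
    intro a ρ hρ
    obtain ⟨-, h2, h3, -, -⟩ := key a
    have h6 := hmem a ρ hρ
    exact ⟨h2.1.1.trans h6.1, h6.2.trans h3.1.2⟩
  have hrange : range (Subtype.val : {p // p ∈ Z D} → ℝ × ℝ) = Z D := Subtype.range_val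
  refine ⟨Subtype.val_injective, ?_, ?_, ?_, ?_, ?_, ?_⟩
  · intro a
    refine ContinuousOn.comp (t := Icc (0 : ℝ) 1) (c.cont _ (key a).1) ?_ fun ρ hρ => hIcc a ρ hρ
    exact Continuous.continuousOn (by fun_prop)
  · intro a
    rw [fX_val c (key a).2.1]
    simp
  · intro a
    rw [fX_val c (key a).2.2.1]
    simp
  · intro a h
    have h1 := congrArg Subtype.val h
    rw [fX_val c (key a).2.1, fX_val c (key a).2.2.1] at h1
    have h2 := c.inj _ (key a).1 (key a).2.1.1 (key a).2.2.1.1 h1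
    have h3 := (key a).2.2.2.1
    rw [h2] at h3
    exact lt_irrefl _ h3
  · intro a ρ hρ h
    rw [hrange] at h
    obtain ⟨h1, h2, h3, h4, h5⟩ := key a
    refine h5 _ ⟨hIcc a ρ ⟨hρ.1.le, hρ.2.le⟩, h⟩ ⟨?_, ?_⟩
    · nlinarith [hρ.1, hρ.2]
    · nlinarith [hρ.1, hρ.2]
  · intro a b hab ρ hρ ρ' hρ' h
    rw [hrange]
    obtain ⟨h1, h2, h3, h4, h5⟩ := key a
    obtain ⟨k1, k2, k3, k4, k5⟩ := key b
    have ha := hIcc a ρ hρ
    have hb := hIcc b ρ' hρ'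
    by_cases he : a.1.1 = b.1.1
    · by_contra hZ
      have hx : a.1.2.1 + ρ * (a.1.2.2 - a.1.2.1) = b.1.2.1 + ρ' * (b.1.2.2 - b.1.2.1) := by
        refine c.inj _ h1 ha hb ?_
        rw [h, he]
      obtain ⟨x, hx0⟩ : ∃ x, x = a.1.2.1 + ρ * (a.1.2.2 - a.1.2.1) := ⟨_, rfl⟩
      have ma := hmem a ρ hρ
      have mb := hmem b ρ' hρ'
      rw [← hx, ← hx0] at mb
      rw [← hx0] at ma ha hZ
      have hxT : x ∉ T c a.1.1 := fun h6 => hZ h6.2
      have ne1 : a.1.2.1 ≠ x := fun h6 => hxT (h6 ▸ h2)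
      have ne2 : a.1.2.2 ≠ x := fun h6 => hxT (h6 ▸ h3)
      rw [he] at hxT h5
      rw [← he] at k2 k3 k5
      rw [← he] at hxT h5
      have ne3 : b.1.2.1 ≠ x := fun h6 => hxT (h6 ▸ k2)
      have ne4 : b.1.2.2 ≠ x := fun h6 => hxT (h6 ▸ k3)
      have l1 : a.1.2.1 < x := lt_of_le_of_ne ma.1 ne1
      have l2 : x < a.1.2.2 := lt_of_le_of_ne ma.2 ne2.symm
      have l3 : b.1.2.1 < x := lt_of_le_of_ne mb.1 ne3
      have l4 : x < b.1.2.2 := lt_of_le_of_ne mb.2 ne4.symm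
      have e1 : a.1.2.1 = b.1.2.1 := by
        apply le_antisymm
        · by_contra h6
          push Not at h6
          exact k5 _ h2 ⟨h6, l1.trans l4⟩
        · by_contra h6
          push Not at h6
          exact h5 _ k2 ⟨h6, l3.trans l2⟩
      have e2 : a.1.2.2 = b.1.2.2 := by
        apply le_antisymm
        · by_contra h6
          push Not at h6
          exact h5 _ k3 ⟨l1.trans l4, h6⟩
        · by_contra h6
          push Not at h6
          exact k5 _ h3 ⟨l3.trans l2, h6⟩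
      exact hab (Subtype.ext (Prod.ext he (Prod.ext e1 e2)))
    · refine mem_Z D h1 k1 he ?_ ?_
      · rw [← c.im _ h1]
        exact mem_image_of_mem _ ha
      · rw [h, ← c.im _ k1]
        exact mem_image_of_mem _ hb

/-- the inner parameters, sorted -/
def M (e : Sym2 V) : List ℝ := (((TF c e).erase 0).erase 1).sort (· ≤ ·)

theorem mem_M [Finite V] {e : Sym2 V} (he : e ∈ G.edgeSet) {r : ℝ} :
    r ∈ M c e ↔ r ≠ 1 ∧ r ≠ 0 ∧ r ∈ T c e := by
  rw [M, Finset.mem_sort, Finset.mem_erase, Finset.mem_erase, mem_TF c he]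

/-- adjacent points of the planarization -/
def Rel [Fintype V] (x y : {p // p ∈ Z D}) : Prop := ∃ a : {a // a ∈ AF c},
  (fX c a.1.1 a.1.2.1 = x ∧ fX c a.1.1 a.1.2.2 = y) ∨
    (fX c a.1.1 a.1.2.1 = y ∧ fX c a.1.1 a.1.2.2 = x)

theorem chain [Fintype V] (hs : StSort) {e : Sym2 V} (he : e ∈ G.edgeSet) :
    List.IsChain (Rel c) (fX c e 0 :: ((M c e).map (fX c e) ++ [fX c e 1])) := by
  have h1 : fX c e 0 :: ((M c e).map (fX c e) ++ [fX c e 1]) =
      (0 :: (M c e ++ [1])).map (fX c e) := by simp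
  rw [h1, List.isChain_map]
  have hin : ∀ r ∈ M c e, 0 < r ∧ r < 1 := by
    intro r hr
    obtain ⟨h2, h3, h4⟩ := (mem_M c he).1 hr
    exact ⟨lt_of_le_of_ne h4.1.1 h3.symm, lt_of_le_of_ne h4.1.2 h2⟩
  have h2 : (0 :: (M c e ++ [1])).Pairwise (· < ·) := by
    rw [List.pairwise_cons, List.pairwise_append]
    refine ⟨?_, ?_, List.pairwise_singleton _ _, ?_⟩
    · intro r hr
      rw [List.mem_append, List.mem_singleton] at hr
      rcases hr with hr | hr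
      · exact (hin r hr).1
      · rw [hr]; exact zero_lt_one
    · exact (Finset.sortedLT_sort (((TF c e).erase 0).erase 1)).pairwise
    · intro r hr r' hr'
      rw [List.mem_singleton] at hr'
      rw [hr']
      exact (hin r hr).2
  have hmem : ∀ r, r ∈ (0 :: (M c e ++ [1]) : List ℝ) ↔ r ∈ TF c e := by
    intro r
    rw [mem_TF c he, List.mem_cons, List.mem_append, List.mem_singleton, mem_M c he]
    constructor
    · rintro (h3 | h3 | h3)
      · rw [h3]; exact T0 c he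
      · exact h3.2.2
      · rw [h3]; exact T1 c he
    · intro h3
      by_cases h4 : r = 0
      · exact Or.inl h4
      · by_cases h5 : r = 1
        · exact Or.inr (Or.inr h5)
        · exact Or.inr (Or.inl ⟨h5, h4, h3⟩)
  refine (hs _ h2).imp ?_
  rintro r r' ⟨h3, h4, h5, h6⟩
  refine ⟨⟨(e, r, r'), (mem_AF c).2 ⟨he, (hmem r).1 h3, (hmem r').1 h4, h5, fun t ht =>
    h6 t ((hmem t).2 ht)⟩⟩, Or.inl ⟨rfl, rfl⟩⟩

theorem Rel_symm [Fintype V] {x y : {p // p ∈ Z D}} (h : Rel c x y) : Rel c y x := by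
  obtain ⟨a, h | h⟩ := h
  · exact ⟨a, Or.inr h⟩
  · exact ⟨a, Or.inl h⟩

/-- the walk of an edge -/
def path (u v : V) : List {p // p ∈ Z D} :=
  if (c.o s(u, v)).1 = u then (M c s(u, v)).map (fX c s(u, v))
  else ((M c s(u, v)).map (fX c s(u, v))).reverse

theorem or_cases {u v : V} : (c.o s(u, v) = (u, v)) ∨ (c.o s(u, v) = (v, u)) := by
  have h := c.ho s(u, v)
  rw [Sym2.eq_iff] at h
  rcases h with h | h
  · exact Or.inl (Prod.ext h.1.symm h.2.symm)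
  · exact Or.inr (Prod.ext h.2.symm h.1.symm)

theorem mem_path [Fintype V] {u v : V} {x : {p // p ∈ Z D}}
    (hx : x ∈ path c u v) : ∃ r ∈ M c s(u, v), fX c s(u, v) r = x := by
  rw [path] at hx
  split_ifs at hx
  · exact List.mem_map.1 hx
  · rw [List.mem_reverse] at hx
    exact List.mem_map.1 hx

/-- an inner parameter belongs to a crossing point -/
theorem inner_cross [Fintype V] {e : Sym2 V} (he : e ∈ G.edgeSet) {r : ℝ} (hr : r ∈ M c e) :
    c.γ e r ∉ range D.pos ∧ c.γ e r ∈ D.arc e ∧ ∃ f, D.Crosses e f ∧ c.γ e r ∈ D.arc f := by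
  obtain ⟨h1, h2, h3, h4⟩ := (mem_M c he).1 hr
  have h5 : c.γ e r ∈ D.arc e := by
    rw [← c.im e he]
    exact mem_image_of_mem _ h3
  have h6 : c.γ e r ∉ range D.pos := by
    rintro ⟨w, hw⟩
    have h7 := he
    rw [c.ho e, SimpleGraph.mem_edgeSet] at h7
    have h8 := D.avoid _ _ w h7 (by rw [← c.ho e, hw]; exact h5)
    rcases h8 with h8 | h8
    · rw [h8, ← c.g0 e he] at hw
      exact h2 (c.inj e he (T0 c he).1 h3 hw).symm
    · rw [h8, ← c.g1 e he] at hw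
      exact h1 (c.inj e he (T1 c he).1 h3 hw).symm
  refine ⟨h6, h5, ?_⟩
  rcases h4 with h4 | ⟨-, e1, he1, e2, he2, h12, h7, h8⟩
  · exact absurd h4 h6
  · by_cases e3 : e = e1
    · subst e3
      exact ⟨e2, ⟨he, he2, h12, _, ⟨h5, h8⟩, h6⟩, h8⟩
    · exact ⟨e1, ⟨he, he1, e3, _, ⟨h5, h7⟩, h6⟩, h7⟩

theorem M_length [Fintype V] {k : ℕ} (hk : ∀ e ∈ G.edgeSet, {f | D.Crosses e f}.encard ≤ k)
    {e : Sym2 V} (he : e ∈ G.edgeSet) : (M c e).length ≤ k := by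
  rw [M, Finset.length_sort]
  have h1 : ∀ r : ℝ, ∃ f, r ∈ M c e → D.Crosses e f ∧ c.γ e r ∈ D.arc f := by
    intro r
    by_cases hr : r ∈ M c e
    · obtain ⟨-, -, f, hf, hf'⟩ := inner_cross c he hr
      exact ⟨f, fun _ => ⟨hf, hf'⟩⟩
    · exact ⟨e, fun h => absurd h hr⟩
  choose g hg using h1
  have h2 : ((((TF c e).erase 0).erase 1 : Finset ℝ) : Set ℝ).encard ≤
      {f | D.Crosses e f}.encard := by
    refine Set.encard_le_encard_of_injOn (f := g) ?_ ?_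
    · intro r hr
      exact (hg r ((Finset.mem_sort _).2 hr)).1
    · intro r hr r' hr' h
      have a1 : r ∈ M c e := (Finset.mem_sort _).2 hr
      have a2 : r' ∈ M c e := (Finset.mem_sort _).2 hr'
      have b1 := hg r a1
      have b2 := hg r' a2
      rw [← h] at b2
      have c1 := inner_cross c he a1
      have c2 := inner_cross c he a2
      have d := D.once e he (g r) b1.1.2.1 b1.1.2.2.1 ⟨c1.2.1, b1.2⟩ ⟨c2.2.1, b2.2⟩
      exact c.inj e he ((mem_M c he).1 a1).2.2.1 ((mem_M c he).1 a2).2.2.1 d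
  have h3 := h2.trans (hk e he)
  rw [Set.encard_coe_eq_coe_finsetCard] at h3
  exact_mod_cast h3

end Sp64

open Sp64 in
/-- SPLIT -/
theorem stSplit (hs : StSort) : StSplit := by
  intro V _ G k hk
  obtain ⟨D, hk⟩ := hk
  obtain ⟨c⟩ := exists_dat D
  have hfin : Fintype {p // p ∈ Z D} := (Z_finite D).fintype
  refine ⟨{p // p ∈ Z D}, {a // a ∈ AF c}, hfin, inferInstance, Subtype.val,
    fun a => fX c a.1.1 a.1.2.1, fun a => fX c a.1.1 a.1.2.2,
    fun a ρ => c.γ a.1.1 (a.1.2.1 + ρ * (a.1.2.2 - a.1.2.1)),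
    fun v => ⟨D.pos v, Or.inl ⟨v, rfl⟩⟩, path c, pieces c, ?_, ?_, ?_⟩
  · intro u v h
    exact D.pos_inj (congrArg Subtype.val h)
  · intro u v huv
    have he : s(u, v) ∈ G.edgeSet := (SimpleGraph.mem_edgeSet _).2 huv
    have hne : u ≠ v := huv.ne
    have hc := chain c hs he
    refine ⟨?_, ?_, ?_, ?_⟩
    · rw [path]
      split_ifs
      · rw [List.length_map]
        exact M_length c hk he
      · rw [List.length_reverse, List.length_map]
        exact M_length c hk he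
    · rintro x hx ⟨w, hw⟩
      obtain ⟨r, hr, h1⟩ := mem_path c hx
      have h2 := (inner_cross c he hr).1
      refine h2 ⟨w, ?_⟩
      have h3 := congrArg Subtype.val (h1.trans hw.symm)
      rw [fX_val c ((mem_M c he).1 hr).2.2] at h3
      exact h3.symm
    · have h1 : s(v, u) = s(u, v) := Sym2.eq_swap
      rw [path, path, h1]
      rcases or_cases c (u := u) (v := v) with h2 | h2
      · rw [h2, if_neg hne, if_pos rfl]
      · rw [h2, if_pos rfl, if_neg hne.symm, List.reverse_reverse]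
    · have e0 := fX_val c (T0 c he)
      have e1 := fX_val c (T1 c he)
      rw [c.g0 _ he] at e0
      rw [c.g1 _ he] at e1
      rcases or_cases c (u := u) (v := v) with h2 | h2
      · rw [h2] at e0 e1
        rw [path, h2, if_pos rfl]
        have f0 : fX c s(u, v) 0 = ⟨D.pos u, Or.inl ⟨u, rfl⟩⟩ := Subtype.ext e0
        have f1 : fX c s(u, v) 1 = ⟨D.pos v, Or.inl ⟨v, rfl⟩⟩ := Subtype.ext e1
        rw [f0, f1] at hc
        exact hc
      · rw [h2] at e0 e1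
        rw [path, h2, if_neg hne.symm]
        have f0 : fX c s(u, v) 0 = ⟨D.pos v, Or.inl ⟨v, rfl⟩⟩ := Subtype.ext e0
        have f1 : fX c s(u, v) 1 = ⟨D.pos u, Or.inl ⟨u, rfl⟩⟩ := Subtype.ext e1
        rw [f0, f1] at hc
        have h3 : List.IsChain (Rel c) (((⟨D.pos v, Or.inl ⟨v, rfl⟩⟩ : {p // p ∈ Z D}) ::
            ((M c s(u, v)).map (fX c s(u, v)) ++ [⟨D.pos u, Or.inl ⟨u, rfl⟩⟩])).reverse) :=
          List.isChain_reverse.2 (hc.imp fun x y h => Rel_symm c h)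
        have h4 : (((⟨D.pos v, Or.inl ⟨v, rfl⟩⟩ : {p // p ∈ Z D}) ::
            ((M c s(u, v)).map (fX c s(u, v)) ++ [⟨D.pos u, Or.inl ⟨u, rfl⟩⟩])).reverse) =
            ⟨D.pos u, Or.inl ⟨u, rfl⟩⟩ :: (((M c s(u, v)).map (fX c s(u, v))).reverse ++
              [⟨D.pos v, Or.inl ⟨v, rfl⟩⟩]) := by
          simp
        rw [h4] at h3
        exact h3
  · intro x hx
    by_contra hlt
    push Not at hlt
    have hf : {e : Sym2 V | ∃ u v, e = s(u, v) ∧ G.Adj u v ∧ x ∈ path c u v}.Finite :=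
      Set.toFinite _
    rw [Set.two_lt_ncard hf] at hlt
    obtain ⟨e, he, f, hf, g, hg, h1, h2, h3⟩ := hlt
    have key : ∀ e : Sym2 V, e ∈ {e : Sym2 V | ∃ u v, e = s(u, v) ∧ G.Adj u v ∧
        x ∈ path c u v} → e ∈ G.edgeSet ∧ x.1 ∈ D.arc e ∧ x.1 ∉ range D.pos := by
      rintro e ⟨u, v, rfl, huv, hxp⟩
      have he : s(u, v) ∈ G.edgeSet := (SimpleGraph.mem_edgeSet _).2 huv
      obtain ⟨r, hr, h4⟩ := mem_path c hxp
      have h5 := inner_cross c he hr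
      have h6 : x.1 = c.γ s(u, v) r := by
        rw [← h4, fX_val c ((mem_M c he).1 hr).2.2]
      rw [h6]
      exact ⟨he, h5.2.1, h5.1⟩
    obtain ⟨a1, a2, a3⟩ := key e he
    obtain ⟨b1, b2, -⟩ := key f hf
    obtain ⟨d1, d2, -⟩ := key g hg
    exact a3 (D.three e a1 f b1 g d1 h1 h2 h3 x.1 ⟨⟨a2, b2⟩, d2⟩)

end

end Pool.Agent.Lib.MP_1fca17_co.Top
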