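import Pool.Agent.Lib.MP_1fca17_co.Top.Real40
import Pool.Agent.Lib.MP_1fca17_co.Top.Sort
import Pool.Agent.Lib.MP_1fca17_co.Top.Split
import Pool.Agent.Lib.MP_1fca17_co.Top.Ball56
import Pool.Agent.Lib.MP_1fca17_co.Top.Cell
import Pool.Agent.Lib.MP_1fca17_co.Top.Quot
import Pool.Agent.Lib.MP_1fca17_co.Top.GridMap99
import Pool.Agent.Lib.MP_1fca17_co.Top.Bridge32

/-!
# MP_1fca17_co : the bridge from drawings by Jordan arcs to plane maps, all rows together
-/

namespace Pool.Agent.Lib.MP_1fca17_co.Top

/-- BRIDGE: a graph with a simple drawing by Jordan arcs with at most `k` crossings on every edge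
is `k`-planar in the sense of plane maps. -/
theorem bridge_all : StBridge :=
  Bridge32.stBridge (stSplit stSort) stBall stCell stMinor stQuot GridMap99.stGridMap

/-- REAL: a straight-line drawing in general position is a simple drawing by Jordan arcs. -/
theorem real_all : StReal := stReal

end Pool.Agent.Lib.MP_1fca17_co.Top
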