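import Pool.Agent.Lib.MP_1fca17_co.Top.Defs

/-!
# MP_1fca17_co, ROOM TOP : row BALL (helper4)

Disjoint compact connected sets instead of the points and the pieces.
-/

namespace Pool.Agent.Lib.MP_1fca17_co.Top

open Set Metric Filter
open scoped Classical Topology

namespace Ball4

theorem exists_small {ι : Type} [Finite ι] (P : ι → ℝ → Prop)
    (h : ∀ i, ∃ ε > 0, ∀ δ : ℝ, 0 < δ → δ ≤ ε → P i δ) : ∃ δ > 0, ∀ i, P i δ := by
  choose ε hε hP using h
  have h1 : ∀ᶠ δ in 𝓝[>] (0 : ℝ), ∀ i, P i δ := by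
    rw [eventually_all]
    intro i
    filter_upwards [Ioc_mem_nhdsGT (hε i)] with δ hδ
    exact hP i δ hδ.1 hδ.2
  obtain ⟨δ, h2, h3⟩ := (h1.and self_mem_nhdsWithin).exists
  exact ⟨δ, h3, h2⟩

end Ball4

open Ball4 in
/-- BALL -/
theorem stBall : StBall := by
  intro X A _ _ z s t γ hP
  -- the curves
  have hΓ : ∀ a, IsCompact (γ a '' Icc 0 1) := fun a => isCompact_Icc.image_of_continuousOn
    (hP.cont a)
  have hz : ∀ a x, x ≠ s a → x ≠ t a → z x ∉ γ a '' Icc 0 1 := by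
    rintro a x hs ht ⟨r, hr, hrx⟩
    rcases eq_or_lt_of_le hr.1 with h0 | h0
    · rw [← h0, hP.start] at hrx
      exact hs (hP.inj hrx).symm
    · rcases eq_or_lt_of_le hr.2 with h1 | h1
      · rw [h1, hP.stop] at hrx
        exact ht (hP.inj hrx).symm
      · exact hP.inner a r ⟨h0, h1⟩ ⟨x, hrx.symm⟩
  -- the radius
  obtain ⟨δ1, hδ1, hd1⟩ := exists_small (ι := X × X) (fun p δ => p.1 ≠ p.2 →
    2 * δ < dist (z p.1) (z p.2)) (by
      rintro ⟨x, y⟩
      by_cases hxy : x = y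
      · exact ⟨1, one_pos, fun δ _ _ h => absurd hxy h⟩
      · have : 0 < dist (z x) (z y) := dist_pos.2 (fun h => hxy (hP.inj h))
        refine ⟨dist (z x) (z y) / 3, by positivity, fun δ hδ hδ' _ => ?_⟩
        simp only
        linarith)
  obtain ⟨δ2, hδ2, hd2⟩ := exists_small (ι := A × X) (fun p δ => p.2 ≠ s p.1 → p.2 ≠ t p.1 →
    Disjoint (γ p.1 '' Icc 0 1) (closedBall (z p.2) δ)) (by
      rintro ⟨a, x⟩
      by_cases hx : x ≠ s a ∧ x ≠ t a
      · have hopen : IsOpen (γ a '' Icc 0 1)ᶜ := (hΓ a).isClosed.isOpen_compl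
        obtain ⟨ε, hε, hball⟩ := Metric.isOpen_iff.1 hopen (z x) (hz a x hx.1 hx.2)
        refine ⟨ε / 2, by positivity, fun δ hδ hδ' _ _ => ?_⟩
        rw [Set.disjoint_left]
        intro w hw hw'
        refine hball ?_ hw
        rw [mem_ball]
        rw [mem_closedBall] at hw'
        linarith
      · refine ⟨1, one_pos, fun δ _ _ h h' => absurd ⟨h, h'⟩ hx⟩)
  obtain ⟨δ, hδ, hδa, hδb⟩ : ∃ δ : ℝ, 0 < δ ∧ δ ≤ δ1 ∧ δ ≤ δ2 :=
    ⟨min δ1 δ2, lt_min hδ1 hδ2, min_le_left _ _, min_le_right _ _⟩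
  -- the ends of the pieces
  have h1 : ∀ a, ∃ r, 0 < r ∧ r < 1 / 2 ∧ γ a r ∈ closedBall (z (s a)) δ := by
    intro a
    have hc := Metric.continuousOn_iff.1 (hP.cont a) 0 ⟨le_rfl, zero_le_one⟩ δ hδ
    obtain ⟨η, hη, hc⟩ := hc
    refine ⟨min (1 / 4) (η / 2), by positivity, lt_of_le_of_lt (min_le_left _ _) (by norm_num),
      ?_⟩
    have h2 : 0 < min (1 / 4 : ℝ) (η / 2) := by positivity
    have h3 := hc (min (1 / 4) (η / 2)) ⟨h2.le, (min_le_left _ _).trans (by norm_num)⟩ (by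
      rw [Real.dist_eq, sub_zero, abs_of_pos h2]
      exact lt_of_le_of_lt (min_le_right _ _) (by linarith))
    rw [hP.start] at h3
    exact h3.le
  have h2 : ∀ a, ∃ r, 1 / 2 < r ∧ r < 1 ∧ γ a r ∈ closedBall (z (t a)) δ := by
    intro a
    have hc := Metric.continuousOn_iff.1 (hP.cont a) 1 ⟨zero_le_one, le_rfl⟩ δ hδ
    obtain ⟨η, hη, hc⟩ := hc
    have h2 : 0 < min (1 / 4 : ℝ) (η / 2) := by positivity
    have h4 : min (1 / 4 : ℝ) (η / 2) ≤ 1 / 4 := min_le_left _ _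
    have h5 : min (1 / 4 : ℝ) (η / 2) ≤ η / 2 := min_le_right _ _
    refine ⟨1 - min (1 / 4) (η / 2), by linarith, by linarith, ?_⟩
    have h3 := hc (1 - min (1 / 4) (η / 2)) ⟨by linarith, by linarith⟩ (by
      rw [Real.dist_eq, abs_sub_comm, sub_sub_cancel, abs_of_pos h2]
      linarith)
    rw [hP.stop] at h3
    exact h3.le
  choose r1 hr1 hr1' hr1K using h1
  choose r2 hr2 hr2' hr2K using h2
  have hsub : ∀ a, Icc (r1 a) (r2 a) ⊆ Icc 0 1 := fun a r hr =>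
    ⟨(hr1 a).le.trans hr.1, hr.2.trans (hr2' a).le⟩
  have hsub' : ∀ a, Icc (r1 a) (r2 a) ⊆ Ioo 0 1 := fun a r hr =>
    ⟨(hr1 a).trans_le hr.1, hr.2.trans_lt (hr2' a)⟩
  have hle : ∀ a, r1 a ≤ r2 a := fun a => by have := hr1' a; have := hr2 a; linarith
  refine ⟨fun x => closedBall (z x) δ, fun a => γ a '' Icc (r1 a) (r2 a), ?_, ?_, ?_, ?_, ?_, ?_⟩
  · intro x
    exact ⟨isCompact_closedBall _ _, (convex_closedBall _ _).isPreconnected,
      ⟨z x, mem_closedBall_self hδ.le⟩⟩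
  · intro a
    exact ⟨isCompact_Icc.image_of_continuousOn ((hP.cont a).mono (hsub a)),
      isPreconnected_Icc.image _ ((hP.cont a).mono (hsub a))⟩
  · intro x y hxy
    rw [Set.disjoint_left]
    intro w hw hw'
    rw [mem_closedBall] at hw hw'
    have h3 := hd1 (x, y) hxy
    simp only at h3
    have h4 := dist_triangle_left (z x) (z y) w
    linarith
  · intro a b hab
    rw [Set.disjoint_left]
    rintro w ⟨r, hr, rfl⟩ ⟨r', hr', hw⟩
    exact hP.inner a r (hsub' a hr) (hP.disj a b hab r (hsub a hr) r' (hsub b hr') hw.symm)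
  · intro a x hs ht
    have h3 := hd2 (a, x) hs ht
    refine h3.mono (image_mono (hsub a)) ?_
    exact closedBall_subset_closedBall hδb
  · intro a
    exact ⟨⟨γ a (r1 a), ⟨r1 a, ⟨le_rfl, hle a⟩, rfl⟩, hr1K a⟩,
      ⟨γ a (r2 a), ⟨r2 a, ⟨hle a, le_rfl⟩, rfl⟩, hr2K a⟩⟩

end Pool.Agent.Lib.MP_1fca17_co.Top
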