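import Mathlib
import Pool.Agent.Lib.MP_1fca17_co.Top.Defs
import Pool.Agent.Lib.MP_1fca17_co.T.Chain21

/-!
# MP_1fca17_co : the bridge from simple drawings to plane maps, from StPlanar
-/

namespace Pool.Agent.Lib.MP_1fca17_co.Top.Bridge21

open Set
open scoped Classical
open Pool.Agent.Lib.MP_1fca17_co.Q (PlaneMap KPlanar)
open Pool.Agent.Lib.MP_1fca17_co.T.Chain21 (StPlanar chain)

/-- BRIDGE from PLANAR -/
theorem stBridge_of_planar (hPL : StPlanar) : StBridge := by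
  intro V _ G k hG
  obtain ⟨D, hk⟩ := hG
  have hE : ∀ e : G.edgeSet, ∃ u v, (e : Sym2 V) = s(u, v) ∧ G.Adj u v := by
    rintro ⟨e, he⟩
    induction e using Sym2.ind with
    | _ u v => exact ⟨u, v, rfl, (SimpleGraph.mem_edgeSet G).1 he⟩
  choose src tgt hst hadj using hE
  have hA : ∀ e : G.edgeSet, IsArc (D.pos (src e)) (D.pos (tgt e)) (D.arc (e : Sym2 V)) := by
    intro e
    have := D.isArc (src e) (tgt e) (hadj e)
    rwa [← hst e] at this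
  choose γ hcont hinj h0 h1 him using hA
  have hmem : ∀ (e : G.edgeSet), ∀ t ∈ Icc (0 : ℝ) 1, γ e t ∈ D.arc (e : Sym2 V) := by
    intro e t ht
    rw [← him e]
    exact ⟨t, ht, rfl⟩
  have hav : ∀ (e : G.edgeSet) w, ∀ t ∈ Icc (0 : ℝ) 1, γ e t = D.pos w → t = 0 ∨ t = 1 := by
    intro e w t ht hw
    have h2 : D.pos w ∈ D.arc s(src e, tgt e) := by
      rw [← hst e, ← hw]
      exact hmem e t ht
    rcases D.avoid _ _ w (hadj e) h2 with h | h
    · left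
      apply hinj e ht ⟨le_rfl, zero_le_one⟩
      rw [hw, h0, h]
    · right
      apply hinj e ht ⟨zero_le_one, le_rfl⟩
      rw [hw, h1, h]
  have hnot : ∀ (e : G.edgeSet), ∀ t ∈ Ioo (0 : ℝ) 1, γ e t ∉ range D.pos := by
    rintro e t ht ⟨w, hw⟩
    rcases hav e w t ⟨ht.1.le, ht.2.le⟩ hw.symm with h | h
    · rw [h] at ht; exact lt_irrefl _ ht.1
    · rw [h] at ht; exact lt_irrefl _ ht.2
  have hcr : ∀ e : G.edgeSet, {t | t ∈ Ioo (0 : ℝ) 1 ∧ ∃ f, f ≠ e ∧ ∃ s ∈ Icc (0 : ℝ) 1,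
      γ f s = γ e t}.encard ≤ k := by
    intro e
    set T := {t | t ∈ Ioo (0 : ℝ) 1 ∧ ∃ f, f ≠ e ∧ ∃ s ∈ Icc (0 : ℝ) 1, γ f s = γ e t} with hT
    have hch : ∀ t, t ∈ T → ∃ f : G.edgeSet, f ≠ e ∧ ∃ s ∈ Icc (0 : ℝ) 1, γ f s = γ e t :=
      fun t ht => ht.2
    set F : ℝ → Sym2 V := fun t => if h : t ∈ T then ((hch t h).choose : Sym2 V) else e with hF
    have hFt : ∀ t ∈ T, F t ∈ G.edgeSet ∧ F t ≠ e ∧ γ e t ∈ D.arc (F t) := by
      intro t ht
      have h2 : F t = ((hch t ht).choose : Sym2 V) := by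
        rw [hF]; simp only [ht, dif_pos]
      obtain ⟨h3, s, hs, h4⟩ := (hch t ht).choose_spec
      rw [h2]
      refine ⟨((hch t ht).choose).2, fun h => h3 (Subtype.ext h), ?_⟩
      have h5 := hmem (hch t ht).choose s hs
      rw [h4] at h5
      exact h5
    refine le_trans ?_ (hk (e : Sym2 V) e.2)
    have hinjF : InjOn F T := by
      intro t ht t' ht' htt
      obtain ⟨a1, a2, a3⟩ := hFt t ht
      obtain ⟨b1, b2, b3⟩ := hFt t' ht'
      rw [← htt] at b3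
      have hs := D.once (e : Sym2 V) e.2 (F t) a1 (Ne.symm a2)
      have ht1 : t ∈ Icc (0 : ℝ) 1 := ⟨ht.1.1.le, ht.1.2.le⟩
      have ht1' : t' ∈ Icc (0 : ℝ) 1 := ⟨ht'.1.1.le, ht'.1.2.le⟩
      have := hs ⟨hmem e t ht1, a3⟩ ⟨hmem e t' ht1', b3⟩
      exact hinj e ht1 ht1' this
    rw [← hinjF.encard_image]
    apply encard_le_encard
    rintro _ ⟨t, ht, rfl⟩
    obtain ⟨a1, a2, a3⟩ := hFt t ht
    exact ⟨e.2, a1, Ne.symm a2, γ e t, ⟨hmem e t ⟨ht.1.1.le, ht.1.2.le⟩, a3⟩, hnot e t ht.1⟩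
  refine chain hPL G k src tgt hadj ?_ ?_ D.pos D.pos_inj γ hcont hinj h0 h1 hav ?_ ?_
  · intro e f h
    rw [← hst e, ← hst f] at h
    exact Subtype.ext h
  · intro u v huv
    exact ⟨⟨s(u, v), huv⟩, (hst _).symm⟩
  · intro e
    have h := hcr e
    have hfin : {t | t ∈ Ioo (0 : ℝ) 1 ∧ ∃ f, f ≠ e ∧ ∃ s ∈ Icc (0 : ℝ) 1,
        γ f s = γ e t}.Finite := Set.finite_of_encard_le_coe h
    refine ⟨hfin, ?_⟩
    rw [← hfin.cast_ncard_eq] at h
    exact_mod_cast h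
  · intro z hz
    by_contra hlt
    rw [not_le, Set.two_lt_ncard_iff (Set.toFinite _)] at hlt
    obtain ⟨e, f, g, he, hf, hg, hef, heg, hfg⟩ := hlt
    have hz' : ∀ e : G.edgeSet, z ∈ γ e '' Icc (0 : ℝ) 1 → z ∈ D.arc (e : Sym2 V) := by
      intro e he
      rw [← him e]
      exact he
    apply hz
    exact D.three e e.2 f f.2 g g.2 (fun h => hef (Subtype.ext h)) (fun h => heg (Subtype.ext h))
      (fun h => hfg (Subtype.ext h)) z ⟨⟨hz' e he, hz' f hf⟩, hz' g hg⟩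

end Pool.Agent.Lib.MP_1fca17_co.Top.Bridge21
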