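import Mathlib
import Pool.Agent.Lib.MP_1fca17_co.Top.Defs

/-!
# MP_1fca17_co : from the bridge and the theorem for plane maps to the question (row FINAL)
-/

set_option autoImplicit false

namespace Pool.Agent.Lib.MP_1fca17_co.Top

open Set
open scoped Classical
open Pool.Agent.Lib.MP_1fca17_co (GenPos sg)
open Pool.Agent.Lib.MP_1fca17_co.Q (PlaneMap KPlanar edgeSeg)

noncomputable section

/-- FINAL -/
theorem stFinal : StFinal := by
  intro hreal hbridge f C hf hmain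
  have hC : 0 ≤ C := by
    have h1 := hf 1 le_rfl
    have h2 : (0 : ℝ) ≤ (f 1 : ℝ) := Nat.cast_nonneg _
    rw [Nat.cast_one, Real.one_rpow, mul_one] at h1
    linarith
  have hbd : ∀ k : ℕ, 1 ≤ k → ((f (k + 1) + 2 : ℕ) : ℝ) ≤ (2 * C + 2) * (k : ℝ) ^ (13 / 14 : ℝ) := by
    intro k hk
    have hk1 : (1 : ℝ) ≤ (k : ℝ) := by exact_mod_cast hk
    have hk0 : (0 : ℝ) ≤ (k : ℝ) := by linarith
    have h1 := hf (k + 1) (by omega)
    have h2 : ((k + 1 : ℕ) : ℝ) ^ (13 / 14 : ℝ) ≤ 2 * (k : ℝ) ^ (13 / 14 : ℝ) := by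
      calc ((k + 1 : ℕ) : ℝ) ^ (13 / 14 : ℝ) ≤ (2 * (k : ℝ)) ^ (13 / 14 : ℝ) := by
            apply Real.rpow_le_rpow (Nat.cast_nonneg _) _ (by norm_num)
            push_cast
            linarith
        _ = (2 : ℝ) ^ (13 / 14 : ℝ) * (k : ℝ) ^ (13 / 14 : ℝ) :=
            Real.mul_rpow (by norm_num) hk0
        _ ≤ 2 * (k : ℝ) ^ (13 / 14 : ℝ) := by
            apply mul_le_mul_of_nonneg_right _ (Real.rpow_nonneg hk0 _)
            calc (2 : ℝ) ^ (13 / 14 : ℝ) ≤ (2 : ℝ) ^ (1 : ℝ) :=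
                  Real.rpow_le_rpow_of_exponent_le (by norm_num) (by norm_num)
              _ = 2 := Real.rpow_one 2
    have h3 : (1 : ℝ) ≤ (k : ℝ) ^ (13 / 14 : ℝ) := Real.one_le_rpow hk1 (by norm_num)
    have h4 := mul_le_mul_of_nonneg_left h2 hC
    push_cast at h1 h4 ⊢
    nlinarith
  refine ⟨fun k => f (k + 1) + 2, fun k => Nat.le_add_left 2 _, ?_, ⟨2 * C + 2, hbd⟩, ?_⟩
  · have hlim : Filter.Tendsto (fun k : ℕ => (2 * C + 2) * (k : ℝ) ^ (-(1 / 14 : ℝ))) Filter.atTop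
        (nhds 0) := by
      have h1 : Filter.Tendsto (fun k : ℕ => (k : ℝ) ^ (-(1 / 14 : ℝ))) Filter.atTop (nhds 0) :=
        (tendsto_rpow_neg_atTop (by norm_num : (0 : ℝ) < 1 / 14)).comp tendsto_natCast_atTop_atTop
      simpa using h1.const_mul (2 * C + 2)
    refine tendsto_of_tendsto_of_tendsto_of_le_of_le' tendsto_const_nhds hlim
      (Filter.Eventually.of_forall fun k => by positivity) ?_
    filter_upwards [Filter.eventually_ge_atTop 1] with k hk
    have hk1 : (1 : ℝ) ≤ (k : ℝ) := by exact_mod_cast hk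
    have hk0 : (0 : ℝ) < (k : ℝ) := by linarith
    rw [div_le_iff₀ hk0]
    refine (hbd k hk).trans (le_of_eq ?_)
    have h2 : (k : ℝ) ^ (13 / 14 : ℝ) = (k : ℝ) ^ (-(1 / 14 : ℝ)) * (k : ℝ) := by
      conv_rhs => rw [← Real.rpow_one (k : ℝ), ← Real.rpow_mul hk0.le, ← Real.rpow_add hk0]
      norm_num
    rw [h2]
    ring
  · intro k V _ G hG
    have h1 : IsKPlanar (k + 1) G := by
      obtain ⟨D, hD⟩ := hG
      refine ⟨D, fun e he => (hD e he).trans ?_⟩
      exact_mod_cast Nat.le_succ k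
    obtain ⟨P, hP, hF⟩ := hmain V (k + 1) (by omega) G (hbridge V G (k + 1) h1)
    obtain ⟨D, hD⟩ := hreal V G P hP
    refine ⟨D, ?_⟩
    rintro ⟨F, hc, he, hx⟩
    have hc' : F.card = f (k + 1) + 2 := hc
    have h2 := hF F he (fun e h3 f h4 h5 => hD e f (hx e h3 f h4 h5))
    omega

end

end Pool.Agent.Lib.MP_1fca17_co.Top
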