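import Mathlib
import Pool.Agent.Lib.MP_1fca17_co.Top.Defs

/-!
# MP_1fca17_co : FINAL, from the bridge and the theorem for plane maps to the question
-/

namespace Pool.Agent.Lib.MP_1fca17_co.Top

open Set Filter

noncomputable section

namespace Final59

theorem bound (f : ℕ → ℕ) (C : ℝ) (hf : ∀ k, 1 ≤ k → (f k : ℝ) ≤ C * (k : ℝ) ^ (13 / 14 : ℝ))
    (k : ℕ) (hk : 1 ≤ k) :
    ((f (k + 1) + 2 : ℕ) : ℝ) ≤ (2 * C + 2) * (k : ℝ) ^ (13 / 14 : ℝ) := by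
  have hC : 0 ≤ C := by
    have h1 := hf 1 le_rfl
    rw [Nat.cast_one, Real.one_rpow, mul_one] at h1
    exact (Nat.cast_nonneg _).trans h1
  have hk1 : (1 : ℝ) ≤ k := by exact_mod_cast hk
  have h1 := hf (k + 1) (by omega)
  have h2 : ((k + 1 : ℕ) : ℝ) ≤ 2 * k := by
    push_cast
    linarith
  have h3 : ((k + 1 : ℕ) : ℝ) ^ (13 / 14 : ℝ) ≤ (2 * (k : ℝ)) ^ (13 / 14 : ℝ) :=
    Real.rpow_le_rpow (by positivity) h2 (by norm_num)
  have h4 : (2 * (k : ℝ)) ^ (13 / 14 : ℝ) = 2 ^ (13 / 14 : ℝ) * (k : ℝ) ^ (13 / 14 : ℝ) :=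
    Real.mul_rpow (by norm_num) (by positivity)
  have h5 : (2 : ℝ) ^ (13 / 14 : ℝ) ≤ 2 := by
    calc (2 : ℝ) ^ (13 / 14 : ℝ) ≤ (2 : ℝ) ^ (1 : ℝ) :=
          Real.rpow_le_rpow_of_exponent_le (by norm_num) (by norm_num)
      _ = 2 := Real.rpow_one 2
  have h6 : (1 : ℝ) ≤ (k : ℝ) ^ (13 / 14 : ℝ) := Real.one_le_rpow hk1 (by norm_num)
  have h7 : ((k + 1 : ℕ) : ℝ) ^ (13 / 14 : ℝ) ≤ 2 * (k : ℝ) ^ (13 / 14 : ℝ) := by
    refine h3.trans ?_
    rw [h4]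
    exact mul_le_mul_of_nonneg_right h5 (by linarith)
  have h8 := mul_le_mul_of_nonneg_left h7 hC
  rw [Nat.cast_add, Nat.cast_ofNat]
  nlinarith

theorem lim (g : ℕ → ℕ) (C : ℝ) (hg : ∀ k, 1 ≤ k → (g k : ℝ) ≤ C * (k : ℝ) ^ (13 / 14 : ℝ)) :
    Tendsto (fun k : ℕ => (g k : ℝ) / k) atTop (nhds 0) := by
  have h1 : Tendsto (fun k : ℕ => C * (k : ℝ) ^ (-(1 / 14) : ℝ)) atTop (nhds 0) := by
    have h2 := (tendsto_rpow_neg_atTop (show (0 : ℝ) < 1 / 14 by norm_num)).comp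
      tendsto_natCast_atTop_atTop
    simpa using h2.const_mul C
  refine squeeze_zero' (Eventually.of_forall fun k => by positivity) ?_ h1
  filter_upwards [eventually_ge_atTop 1] with k hk
  have hk1 : (0 : ℝ) < k := by exact_mod_cast hk
  rw [div_le_iff₀ hk1]
  refine (hg k hk).trans (le_of_eq ?_)
  have h3 : (k : ℝ) ^ (-(1 / 14) : ℝ) * (k : ℝ) = (k : ℝ) ^ (13 / 14 : ℝ) := by
    have h4 := Real.rpow_add hk1 (-(1 / 14)) 1
    rw [Real.rpow_one] at h4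
    rw [← h4]
    norm_num
  rw [mul_assoc, h3]

end Final59

/-- FINAL -/
theorem stFinal : StFinal := by
  intro hreal hbridge f C hf hmain
  have hg := Final59.bound f C hf
  refine ⟨fun k => f (k + 1) + 2, fun k => Nat.le_add_left 2 _, Final59.lim _ _ hg, ⟨_, hg⟩, ?_⟩
  intro k V _ G hG
  have hG' : IsKPlanar (k + 1) G := by
    obtain ⟨D, hD⟩ := hG
    exact ⟨D, fun e he => (hD e he).trans (by exact_mod_cast Nat.le_succ k)⟩
  obtain ⟨P, hP, hF⟩ := hmain V (k + 1) (by omega) G (hbridge V G (k + 1) hG')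
  obtain ⟨D, hD⟩ := hreal V G P hP
  refine ⟨D, ?_⟩
  rintro ⟨F, hcard, hFe, hcr⟩
  have h1 := hF F hFe fun e he f' hf' hne => hD e f' (hcr e he f' hf' hne)
  simp only at hcard
  omega

end

end Pool.Agent.Lib.MP_1fca17_co.Top
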