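import Mathlib
import Pool.Agent.Lib.MP_1fca17_co.Top.Final
import Pool.Agent.Lib.MP_1fca17_co.F.Defs

/-!
# MP_1fca17_co : the question from the theorem for plane maps (FULL) and the bridge
-/

set_option autoImplicit false

namespace Pool.Agent.Lib.MP_1fca17_co.Top

open Pool.Agent.Lib.MP_1fca17_co (GenPos)
open Pool.Agent.Lib.MP_1fca17_co.Q (KPlanar edgeSeg)

noncomputable section

/-- GLUE -/
theorem question_of (hfull : F.StFull) (hreal : StReal) (hbridge : StBridge) :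
    ∃ g : ℕ → ℕ, (∀ k, 2 ≤ g k) ∧
      Filter.Tendsto (fun k : ℕ => (g k : ℝ) / k) Filter.atTop (nhds 0) ∧
      (∃ C : ℝ, ∀ k, 1 ≤ k → (g k : ℝ) ≤ C * (k : ℝ) ^ (13 / 14 : ℝ)) ∧
      ∀ (k : ℕ) (V : Type) [Fintype V] (G : SimpleGraph V),
        IsKPlanar k G → IsQuasiplanar (g k) G := by
  obtain ⟨C, hC⟩ := hfull
  have h0 : ∀ k : ℕ, 0 ≤ (C : ℝ) * (k : ℝ) ^ ((13 : ℝ) / 14) := fun k =>
    mul_nonneg (Nat.cast_nonneg _) (Real.rpow_nonneg (Nat.cast_nonneg _) _)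
  refine stFinal hreal hbridge (fun k => ⌊(C : ℝ) * (k : ℝ) ^ ((13 : ℝ) / 14)⌋₊) C
    (fun k _ => Nat.floor_le (h0 k)) ?_
  intro V _ k hk G hG
  obtain ⟨P, hP, hF⟩ := hC V k hk G hG
  exact ⟨P, hP, fun F he hx => Nat.le_floor (hF F he hx)⟩

end

end Pool.Agent.Lib.MP_1fca17_co.Top
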