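import Mathlib
import Pool.Agent.Lib.MP_1fca17_co.Top.Defs
import Pool.Agent.Lib.MP_1fca17_co.TOP.Minor32

/-!
# MP_1fca17_co : rows SKIP, MERGE, PINCH, QUOT (helper32)
-/

namespace Pool.Agent.Lib.MP_1fca17_co.Top.Perm32

open Set
open scoped Classical
open Pool.Agent.Lib.MP_1fca17_co.Q (PlaneMap)
open Pool.Agent.Lib.MP_1fca17_co.TOP.Minor32
open Equiv.Perm

theorem stSkip : StSkip := by
  intro D _ φ x hx
  refine ⟨?_, cut_card hx⟩
  intro d d'
  by_cases hd : d = x
  · rw [hd, cut_fix]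
    constructor
    · exact fun h => Or.inl h
    · rintro (h | ⟨h, _⟩)
      · exact h
      · exact absurd rfl h
  by_cases hd' : d' = x
  · rw [hd', sameCycle_comm, cut_fix]
    constructor
    · exact fun h => Or.inl h.symm
    · rintro (h | ⟨_, h, _⟩)
      · exact h.symm
      · exact absurd rfl h
  · rw [cut_iff hx hd hd']
    constructor
    · exact fun h => Or.inr ⟨hd, hd', h⟩
    · rintro (h | ⟨_, _, h⟩)
      · rw [h]
      · exact h

theorem stMerge : StMerge := by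
  intro D _ σ x y hxy d d'
  rw [join_iff hxy]
  constructor
  · rintro (h | ⟨h, h'⟩ | ⟨h, h'⟩)
    · exact Or.inl h
    · exact Or.inr ⟨Or.inl h, Or.inr h'⟩
    · exact Or.inr ⟨Or.inr h, Or.inl h'⟩
  · rintro (h | ⟨h | h, h' | h'⟩)
    · exact Or.inl h
    · exact Or.inl (h.symm.trans h')
    · exact Or.inr (Or.inl ⟨h, h'⟩)
    · exact Or.inr (Or.inr ⟨h, h'⟩)
    · exact Or.inl (h.symm.trans h')

theorem stPinch : StPinch := by
  intro X D Y _ _ _ M c d hc hne hfib
  obtain ⟨M', h1, h2⟩ := merge M d hne c hc hfib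
  exact ⟨M', h1, Equiv.ext h2⟩

theorem stQuot : StQuot := by
  intro X D Y _ _ _ M c hc hconn
  obtain ⟨M', h1, h2⟩ := minor M Y c hc (by
    intro x y hxy
    have h := hconn (c y) x hxy y rfl
    refine rtg_lift (p := fun a b => c a = c b ∧ ∃ d, M.vert d = a ∧ M.vert (M.α d) = b)
      (fun z => z) ?_ h
    rintro a b ⟨ha, hb, hab⟩
    refine ⟨?_, hab⟩
    change c a = c y at ha; change c b = c y at hb
    rw [ha, hb])
  refine ⟨M', ?_⟩
  rintro x x' ⟨d, hd, hd'⟩
  exact ⟨d, by rw [h1, hd], by rw [h2, h1, hd']⟩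

end Pool.Agent.Lib.MP_1fca17_co.Top.Perm32
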