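import Pool.Agent.Lib.MP_1fca17_co.Top.Defs

/-!
# MP_1fca17_co : row PINCH (the two ends of a dart are identified)
-/

namespace Pool.Agent.Lib.MP_1fca17_co.Top.Pinch85

open Set
open scoped Classical
open Pool.Agent.Lib.MP_1fca17_co.Q (PlaneMap)
open Pool.Agent.Lib.MP_1fca17_co.Top

theorem vert_sigma {X D : Type} [Fintype X] [Fintype D] (M : PlaneMap X D) (a : D) :
    M.vert (M.σ a) = M.vert a := by
  rw [M.orbit]
  exact (Equiv.Perm.sameCycle_apply_left (f := M.σ)).2 (Equiv.Perm.SameCycle.refl _ _)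

theorem card_pinch {X Y : Type} [Fintype X] [Fintype Y] (c : X → Y) (u w : X)
    (hs : Function.Surjective c) (hne : u ≠ w)
    (hc : ∀ x x', c x = c x' ↔ x = x' ∨ (x = u ∧ x' = w) ∨ (x = w ∧ x' = u)) :
    Fintype.card X = Fintype.card Y + 1 := by
  have hb : Function.Bijective (fun x : {x : X // x ≠ w} => c x.1) := by
    constructor
    · rintro ⟨x, hx⟩ ⟨x', hx'⟩ h
      have h' : c x = c x' := h
      rw [hc] at h'
      rcases h' with h' | h' | h'
      · exact Subtype.ext h'
      · exact absurd h'.2 hx'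
      · exact absurd h'.1 hx
    · intro y
      obtain ⟨x, rfl⟩ := hs y
      by_cases hx : x = w
      · refine ⟨⟨u, hne⟩, ?_⟩
        show c u = c x
        rw [hc]
        exact Or.inr (Or.inl ⟨rfl, hx⟩)
      · exact ⟨⟨x, hx⟩, rfl⟩
  have h1 := Fintype.card_of_bijective hb
  have h2 : Fintype.card {x : X // x ≠ w} = Fintype.card X - 1 := by
    rw [Fintype.card_subtype_compl (fun x => x = w), Fintype.card_subtype_eq]
  have h3 : 0 < Fintype.card X := Fintype.card_pos_iff.2 ⟨w⟩
  omega

theorem stPinch (hskip : StSkip) (hmerge : StMerge) : StPinch := by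
  intro X D Y _ _ _ M c d hs hne hc
  have hvy : M.vert (M.σ (M.α d)) = M.vert (M.α d) := vert_sigma M _
  have hnc : ¬ M.σ.SameCycle d (M.σ (M.α d)) := by
    rw [← M.orbit, hvy]
    exact hne
  have hfix : (M.σ * M.α) d ≠ d := by
    intro h
    have h' : M.σ (M.α d) = d := h
    rw [h'] at hvy
    exact hne hvy
  obtain ⟨_, hcard⟩ := hskip D (M.σ * M.α) d hfix
  have hmg := hmerge D M.σ d (M.σ (M.α d)) hnc
  have hsx : ∀ e, M.σ.SameCycle d e ↔ M.vert d = M.vert e := fun e => (M.orbit d e).symm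
  have hsy : ∀ e, M.σ.SameCycle (M.σ (M.α d)) e ↔ M.vert (M.α d) = M.vert e := by
    intro e
    rw [← M.orbit, hvy]
  refine ⟨{ vert := fun e => c (M.vert e)
            σ := Equiv.swap d (M.σ (M.α d)) * M.σ
            α := M.α
            invol := M.invol
            nofix := M.nofix
            surj := hs.comp M.surj
            orbit := ?_
            conn := ?_
            euler := ?_ }, fun e => rfl, rfl⟩
  · intro e e'
    rw [hmg, hc, ← M.orbit e e', hsx, hsx, hsy, hsy]
    constructor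
    · rintro (h | ⟨h1, h2⟩ | ⟨h1, h2⟩)
      · exact Or.inl h
      · exact Or.inr ⟨Or.inl h1.symm, Or.inr h2.symm⟩
      · exact Or.inr ⟨Or.inr h1.symm, Or.inl h2.symm⟩
    · rintro (h | ⟨h1 | h1, h2 | h2⟩)
      · exact Or.inl h
      · exact Or.inl (h1.symm.trans h2)
      · exact Or.inr (Or.inl ⟨h1.symm, h2.symm⟩)
      · exact Or.inr (Or.inr ⟨h1.symm, h2.symm⟩)
      · exact Or.inl (h1.symm.trans h2)
  · intro y y'
    obtain ⟨x, rfl⟩ := hs y
    obtain ⟨x', rfl⟩ := hs y'
    have h := M.conn x x'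
    induction h with
    | refl => exact Relation.ReflTransGen.refl
    | tail _ hbc ih =>
      obtain ⟨e, h1, h2⟩ := hbc
      exact ih.tail ⟨e, by rw [h1], by rw [h2]⟩
  · have hX := card_pinch c (M.vert d) (M.vert (M.α d)) hs hne hc
    have he := M.euler
    have hcard' : Nat.card (Quotient (Equiv.Perm.SameCycle.setoid
        (Equiv.swap d (M.σ (M.α d)) * M.σ * M.α))) =
        Nat.card (Quotient (Equiv.Perm.SameCycle.setoid (M.σ * M.α))) + 1 := by
      rw [mul_assoc]
      exact hcard
    rw [hcard']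
    omega

end Pool.Agent.Lib.MP_1fca17_co.Top.Pinch85
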