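import Mathlib
import Pool.Agent.Lib.MP_1fca17_co.Stmts

/-!
# MP_1fca17_co : straight-line drawings in general position are simple drawings by Jordan arcs

(row STRAIGHT of the topological bridge, seat 40)
-/

namespace Pool.Agent.Lib.MP_1fca17_co.Top.Straight40

open Set Topology
open Pool.Agent.Lib.MP_1fca17_co (sg GenPos)

noncomputable section

/-- the determinant of two vectors of the plane -/
def det2 (u w : ℝ × ℝ) : ℝ := u.1 * w.2 - u.2 * w.1

/-- the affine coordinates at `p` in the basis `u, w` -/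
def chart (p u w : ℝ × ℝ) (h : det2 u w ≠ 0) : (ℝ × ℝ) ≃ₜ (ℝ × ℝ) where
  toFun z := (det2 (z - p) w / det2 u w, det2 u (z - p) / det2 u w)
  invFun x := p + x.1 • u + x.2 • w
  left_inv z := by
    obtain ⟨D, hD⟩ : ∃ D, det2 u w = D := ⟨_, rfl⟩
    have hD0 : D ≠ 0 := hD ▸ h
    have hD' : u.1 * w.2 - u.2 * w.1 = D := hD
    simp only [hD]
    ext
    · simp only [det2, Prod.fst_add, Prod.smul_fst, smul_eq_mul, Prod.fst_sub, Prod.snd_sub]
      field_simp
      rw [← hD']
      ring
    · simp only [det2, Prod.snd_add, Prod.smul_snd, smul_eq_mul, Prod.fst_sub, Prod.snd_sub]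
      field_simp
      rw [← hD']
      ring
  right_inv x := by
    obtain ⟨D, hD⟩ : ∃ D, det2 u w = D := ⟨_, rfl⟩
    have hD0 : D ≠ 0 := hD ▸ h
    have hD' : u.1 * w.2 - u.2 * w.1 = D := hD
    simp only [hD]
    ext
    · simp only [det2, Prod.fst_add, Prod.smul_fst, smul_eq_mul, Prod.fst_sub, Prod.snd_sub,
        Prod.snd_add, Prod.smul_snd]
      rw [div_eq_iff hD0, ← hD']
      ring
    · simp only [det2, Prod.fst_add, Prod.smul_fst, smul_eq_mul, Prod.fst_sub, Prod.snd_sub,
        Prod.snd_add, Prod.smul_snd]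
      rw [div_eq_iff hD0, ← hD']
      ring
  continuous_toFun := by
    unfold det2
    fun_prop
  continuous_invFun := by fun_prop

theorem chart_symm (p u w : ℝ × ℝ) (h : det2 u w ≠ 0) (x : ℝ × ℝ) :
    (chart p u w h).symm x = p + x.1 • u + x.2 • w := rfl

theorem chart_self (p u w : ℝ × ℝ) (h : det2 u w ≠ 0) : chart p u w h p = 0 := by
  simp [chart, det2]

/-- uniqueness of the coordinates -/
theorem chart_eq {p u w : ℝ × ℝ} (h : det2 u w ≠ 0) {z : ℝ × ℝ} {x y : ℝ}
    (hz : z = p + x • u + y • w) : chart p u w h z = (x, y) := by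
  have := (chart p u w h).apply_symm_apply (x, y)
  rw [chart_symm] at this
  rw [hz]
  exact this

theorem eq_chart {p u w : ℝ × ℝ} (h : det2 u w ≠ 0) (z : ℝ × ℝ) :
    z = p + (chart p u w h z).1 • u + (chart p u w h z).2 • w := by
  have := (chart p u w h).symm_apply_apply z
  rw [chart_symm] at this
  exact this.symm

/-- three points on a line, in terms of the determinant -/
theorem col_iff (a b c : ℝ × ℝ) : Collinear ℝ {a, b, c} ↔ det2 (b - a) (c - a) = 0 := by
  rw [collinear_iff_of_mem (p₀ := a) (by simp)]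
  constructor
  · rintro ⟨v, hv⟩
    obtain ⟨r, hr⟩ := hv b (by simp)
    obtain ⟨s, hs⟩ := hv c (by simp)
    rw [hr, hs]
    simp only [det2, vadd_eq_add, add_sub_cancel_right, Prod.smul_fst, Prod.smul_snd, smul_eq_mul]
    ring
  · intro h
    by_cases hb : b = a
    · refine ⟨c - a, ?_⟩
      intro p hp
      rcases hp with rfl | rfl | rfl
      · exact ⟨0, by simp⟩
      · exact ⟨0, by simp [hb]⟩
      · exact ⟨1, by simp⟩
    · refine ⟨b - a, ?_⟩
      intro p hp
      rcases hp with rfl | rfl | rfl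
      · exact ⟨0, by simp⟩
      · exact ⟨1, by simp⟩
      · -- `c`
        have h' : (b.1 - a.1) * (p.2 - a.2) - (b.2 - a.2) * (p.1 - a.1) = 0 := h
        by_cases h1 : b.1 - a.1 = 0
        · have h2 : b.2 - a.2 ≠ 0 := by
            intro h2
            apply hb
            ext
            · linarith
            · linarith
          refine ⟨(p.2 - a.2) / (b.2 - a.2), ?_⟩
          ext
          · have h3 : (b.2 - a.2) * (p.1 - a.1) = 0 := by rw [h1] at h'; linarith
            have h4 : p.1 - a.1 = 0 := by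
              rcases mul_eq_zero.mp h3 with h4 | h4
              · exact absurd h4 h2
              · exact h4
            simp only [vadd_eq_add, Prod.fst_add, Prod.smul_fst, Prod.fst_sub, smul_eq_mul, h1]
            linarith
          · simp only [vadd_eq_add, Prod.snd_add, Prod.smul_snd, Prod.snd_sub, smul_eq_mul]
            field_simp
            ring
        · refine ⟨(p.1 - a.1) / (b.1 - a.1), ?_⟩
          ext
          · simp only [vadd_eq_add, Prod.fst_add, Prod.smul_fst, Prod.fst_sub, smul_eq_mul]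
            field_simp
            ring
          · simp only [vadd_eq_add, Prod.snd_add, Prod.smul_snd, Prod.snd_sub, smul_eq_mul]
            field_simp
            linarith

/-- points of a segment -/
theorem mem_seg {a b z : ℝ × ℝ} : z ∈ segment ℝ a b ↔ ∃ t : ℝ, 0 ≤ t ∧ t ≤ 1 ∧
    z = a + t • (b - a) := by
  rw [segment_eq_image']
  constructor
  · rintro ⟨t, ht, rfl⟩
    exact ⟨t, ht.1, ht.2, rfl⟩
  · rintro ⟨t, h0, h1, rfl⟩
    exact ⟨t, ⟨h0, h1⟩, rfl⟩

theorem mem_oseg {a b z : ℝ × ℝ} : z ∈ openSegment ℝ a b ↔ ∃ t : ℝ, 0 < t ∧ t < 1 ∧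
    z = a + t • (b - a) := by
  rw [openSegment_eq_image']
  constructor
  · rintro ⟨t, ht, rfl⟩
    exact ⟨t, ht.1, ht.2, rfl⟩
  · rintro ⟨t, h0, h1, rfl⟩
    exact ⟨t, ⟨h0, h1⟩, rfl⟩

/-- LOCAL CHART of a crossing point of two segments that are not parallel -/
theorem cross_chart {a b c d p : ℝ × ℝ} (hd : det2 (b - a) (d - c) ≠ 0)
    (h1 : p ∈ openSegment ℝ a b) (h2 : p ∈ openSegment ℝ c d) :
    ∃ (φ : (ℝ × ℝ) ≃ₜ (ℝ × ℝ)) (ε : ℝ), 0 < ε ∧ φ p = 0 ∧ ∀ z : ℝ × ℝ, ‖φ z‖ < ε →
      (z ∈ segment ℝ a b ↔ (φ z).2 = 0) ∧ (z ∈ segment ℝ c d ↔ (φ z).1 = 0) := by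
  obtain ⟨s, s0, s1, hs⟩ := mem_oseg.mp h1
  obtain ⟨t, t0, t1, ht⟩ := mem_oseg.mp h2
  refine ⟨chart p (b - a) (d - c) hd, min (min s (1 - s)) (min t (1 - t)), ?_, ?_, ?_⟩
  · refine lt_min (lt_min s0 (by linarith)) (lt_min t0 (by linarith))
  · exact chart_self _ _ _ _
  · intro z hz
    have hz1 : |(chart p (b - a) (d - c) hd z).1| ≤ ‖chart p (b - a) (d - c) hd z‖ := by
      have := norm_fst_le (chart p (b - a) (d - c) hd z)
      rwa [Real.norm_eq_abs] at this
    have hz2 : |(chart p (b - a) (d - c) hd z).2| ≤ ‖chart p (b - a) (d - c) hd z‖ := by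
      have := norm_snd_le (chart p (b - a) (d - c) hd z)
      rwa [Real.norm_eq_abs] at this
    have e1 := lt_of_le_of_lt hz1 hz
    have e2 := lt_of_le_of_lt hz2 hz
    rw [lt_min_iff, lt_min_iff, lt_min_iff] at e1 e2
    have hzz := eq_chart (p := p) hd z
    constructor
    · constructor
      · intro h
        obtain ⟨r, r0, r1, hr⟩ := mem_seg.mp h
        have := chart_eq (p := p) hd (z := z) (x := r - s) (y := 0) (by
          rw [hr, hs]; module)
        rw [this]
      · intro h
        rw [h] at hzz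
        set x := (chart p (b - a) (d - c) hd z).1
        rw [mem_seg]
        obtain ⟨⟨g1, g2⟩, -⟩ := e1
        rw [abs_lt] at g1 g2
        refine ⟨s + x, by linarith, by linarith, ?_⟩
        rw [hzz, hs]
        module
    · constructor
      · intro h
        obtain ⟨r, r0, r1, hr⟩ := mem_seg.mp h
        have := chart_eq (p := p) hd (z := z) (x := 0) (y := r - t) (by
          rw [hr, ht]; module)
        rw [this]
      · intro h
        rw [h] at hzz
        set x := (chart p (b - a) (d - c) hd z).2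
        rw [mem_seg]
        obtain ⟨-, ⟨g1, g2⟩⟩ := e2
        rw [abs_lt] at g1 g2
        refine ⟨t + x, by linarith, by linarith, ?_⟩
        rw [hzz, ht]
        module

/-- at most one common point of two segments that are not parallel -/
theorem cross_unique {a b c d p q : ℝ × ℝ} (hd : det2 (b - a) (d - c) ≠ 0)
    (h1 : p ∈ segment ℝ a b) (h2 : p ∈ segment ℝ c d)
    (h3 : q ∈ segment ℝ a b) (h4 : q ∈ segment ℝ c d) : p = q := by
  obtain ⟨s, -, -, hs⟩ := mem_seg.mp h1
  obtain ⟨t, -, -, ht⟩ := mem_seg.mp h2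
  obtain ⟨s', -, -, hs'⟩ := mem_seg.mp h3
  obtain ⟨t', -, -, ht'⟩ := mem_seg.mp h4
  have e1 := chart_eq (p := p) hd (z := q) (x := s' - s) (y := 0) (by
    rw [hs', hs]; module)
  have e2 := chart_eq (p := p) hd (z := q) (x := 0) (y := t' - t) (by
    rw [ht', ht]; module)
  have e3 : (0 : ℝ) = t' - t := congrArg Prod.snd (e1.symm.trans e2)
  have e4 : t' = t := by linarith
  rw [ht, ht', e4]

/-- the straight arc -/
def arc (a b : ℝ × ℝ) (t : ℝ) : ℝ × ℝ := a + t • (b - a)

theorem arc_cont (a b : ℝ × ℝ) : Continuous (arc a b) := by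
  unfold arc
  fun_prop

theorem arc_zero (a b : ℝ × ℝ) : arc a b 0 = a := by simp [arc]

theorem arc_one (a b : ℝ × ℝ) : arc a b 1 = b := by simp [arc]

theorem arc_rev (a b : ℝ × ℝ) (t : ℝ) : arc a b (1 - t) = arc b a t := by
  unfold arc
  module

theorem arc_inj {a b : ℝ × ℝ} (h : a ≠ b) : Function.Injective (arc a b) := by
  intro s t hst
  unfold arc at hst
  have h1 : (s - t) • (b - a) = 0 := by
    have := add_left_cancel hst
    rw [sub_smul, this, sub_self]
  rcases smul_eq_zero.mp h1 with h2 | h2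
  · linarith
  · exact absurd (sub_eq_zero.mp h2).symm h

theorem arc_image (a b : ℝ × ℝ) : arc a b '' Icc 0 1 = segment ℝ a b := by
  rw [segment_eq_image']; rfl

theorem arc_image_open (a b : ℝ × ℝ) : arc a b '' Ioo 0 1 = openSegment ℝ a b := by
  rw [openSegment_eq_image']; rfl

variable {V : Type} {P : V → ℝ × ℝ}

/-- two vectors from three vertices in general position are independent -/
theorem det_ne (hP : GenPos P) {u v w : V} (h1 : u ≠ v) (h2 : u ≠ w) (h3 : v ≠ w) :
    det2 (P v - P u) (P w - P u) ≠ 0 := by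
  intro h
  exact hP.col u v w h1 h2 h3 ((col_iff _ _ _).mpr h)

/-- no vertex on another edge -/
theorem vert_not (hP : GenPos P) {u v w : V} (h1 : u ≠ v) (h2 : u ≠ w) (h3 : v ≠ w) :
    P w ∉ segment ℝ (P u) (P v) := by
  intro h
  obtain ⟨t, -, -, ht⟩ := mem_seg.mp h
  apply det_ne hP h1 h2 h3
  rw [ht]
  simp only [det2, Prod.fst_sub, Prod.snd_sub, Prod.fst_add, Prod.snd_add, Prod.smul_fst,
    Prod.smul_snd, smul_eq_mul]
  ring

/-- two edges with a common end meet only there -/
theorem adj_meet (hP : GenPos P) {u v w : V} (h1 : u ≠ v) (h2 : u ≠ w) (h3 : v ≠ w)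
    {z : ℝ × ℝ} (hz : z ∈ segment ℝ (P u) (P v)) (hz' : z ∈ segment ℝ (P u) (P w)) : z = P u :=
  cross_unique (det_ne hP h1 h2 h3) hz hz' (left_mem_segment _ _ _) (left_mem_segment _ _ _)

/-- disjoint edges that meet: not parallel -/
theorem disj_det (hP : GenPos P) {a b c d : V} (hab : a ≠ b) (hac : a ≠ c) (had : a ≠ d)
    (hbc : b ≠ c) (hbd : b ≠ d) (hcd : c ≠ d) {z : ℝ × ℝ}
    (hz : z ∈ segment ℝ (P a) (P b)) (hz' : z ∈ segment ℝ (P c) (P d)) :
    det2 (P b - P a) (P d - P c) ≠ 0 := by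
  obtain ⟨s, -, -, hs⟩ := mem_seg.mp hz
  obtain ⟨t, -, -, ht⟩ := mem_seg.mp hz'
  intro h
  -- then `P c` is on the line `P a, P b`
  have hc := det_ne hP hab hac hbc
  apply hc
  have e : P c - P a = s • (P b - P a) - t • (P d - P c) := by
    have : P a + s • (P b - P a) = P c + t • (P d - P c) := hs.symm.trans ht
    have h3 : P c = P a + s • (P b - P a) - t • (P d - P c) := by
      rw [this, add_sub_cancel_right]
    calc P c - P a = (P a + s • (P b - P a) - t • (P d - P c)) - P a := by rw [← h3]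
      _ = _ := by abel
  rw [e]
  have h' : (P b - P a).1 * (P d - P c).2 - (P b - P a).2 * (P d - P c).1 = 0 := h
  simp only [det2, Prod.fst_sub, Prod.snd_sub, Prod.smul_fst, Prod.smul_snd, smul_eq_mul] at h' ⊢
  linear_combination (-t) * h'

/-- the common point of two disjoint edges is interior to both -/
theorem disj_open (hP : GenPos P) {a b c d : V} (hab : a ≠ b) (hac : a ≠ c) (had : a ≠ d)
    (hbc : b ≠ c) (hbd : b ≠ d) {z : ℝ × ℝ} (hcd : c ≠ d)
    (hz : z ∈ segment ℝ (P a) (P b)) (hz' : z ∈ segment ℝ (P c) (P d)) :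
    z ∈ openSegment ℝ (P a) (P b) ∧ z ∈ openSegment ℝ (P c) (P d) := by
  constructor
  · refine mem_openSegment_of_ne_left_right ?_ ?_ hz
    · rintro rfl
      exact vert_not hP hcd hac.symm had.symm hz'
    · rintro rfl
      exact vert_not hP hcd hbc.symm hbd.symm hz'
  · refine mem_openSegment_of_ne_left_right ?_ ?_ hz'
    · rintro rfl
      exact vert_not hP hab hac hbc hz
    · rintro rfl
      exact vert_not hP hab had hbd hz

end

end Pool.Agent.Lib.MP_1fca17_co.Top.Straight40
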