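import Mathlib
import Pool.Agent.Lib.MP_1fca17_co.Top.Defs
import Pool.Agent.Lib.MP_1fca17_co.Top.Straight40

/-!
# MP_1fca17_co : rows CHART and REAL of the topological bridge (seat 40)
-/

namespace Pool.Agent.Lib.MP_1fca17_co.Top

open Set Topology
open scoped Classical
open Pool.Agent.Lib.MP_1fca17_co (sg GenPos)
open Pool.Agent.Lib.MP_1fca17_co.Q (edgeSeg)

namespace Real40

open Straight40

noncomputable section

/-- the curve of a straight segment is a Jordan arc -/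
theorem isArc_segment {a b : ℝ × ℝ} (h : a ≠ b) : IsArc a b (segment ℝ a b) :=
  ⟨Straight40.arc a b, (arc_cont a b).continuousOn, (arc_inj h).injOn, arc_zero a b,
    arc_one a b, arc_image a b⟩

/-- proper crossing from two independent directions -/
theorem proper_of_det {a b c d p : ℝ × ℝ} (hd : det2 (b - a) (d - c) ≠ 0)
    (h1 : p ∈ openSegment ℝ a b) (h2 : p ∈ openSegment ℝ c d) :
    ProperCrossing (segment ℝ a b) (segment ℝ c d) p := by
  obtain ⟨φ, ε, hε, hp, hφ⟩ := cross_chart hd h1 h2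
  let ψ : (ℝ × ℝ) ≃ₜ (ℝ × ℝ) := φ.trans (Homeomorph.prodComm ℝ ℝ)
  have hopen : IsOpen {z : ℝ × ℝ | ‖φ z‖ < ε} :=
    isOpen_lt (φ.continuous.norm) continuous_const
  have hsrc : (ψ.toOpenPartialHomeomorph.restrOpen {z : ℝ × ℝ | ‖φ z‖ < ε} hopen).source
      = {z : ℝ × ℝ | ‖φ z‖ < ε} := by
    simp
  have hfun : ∀ w, (ψ.toOpenPartialHomeomorph.restrOpen {z : ℝ × ℝ | ‖φ z‖ < ε} hopen) w
      = ((φ w).2, (φ w).1) := by
    intro w
    rfl
  refine ⟨ψ.toOpenPartialHomeomorph.restrOpen {z : ℝ × ℝ | ‖φ z‖ < ε} hopen, ?_, ?_, ?_⟩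
  · rw [hsrc]
    simp [hp, hε]
  · rw [hfun, hp]
    rfl
  · intro w hw
    rw [hsrc] at hw
    rw [hfun]
    exact ⟨(hφ w hw).1, (hφ w hw).2⟩

end

end Real40

open Real40 Straight40

/-- CHART -/
theorem stChart : StChart := by
  intro p q r s z h1 h2 hne
  refine proper_of_det ?_ h1 h2
  intro h
  apply hne
  have : (q.1 - p.1) * (s.2 - r.2) - (q.2 - p.2) * (s.1 - r.1) = 0 := h
  linarith

namespace Real40

variable {V : Type} {P : V → ℝ × ℝ}

/-- the arc of an edge -/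
def sarc (P : V → ℝ × ℝ) (e : Sym2 V) : Set (ℝ × ℝ) :=
  {z | ∃ u v : V, e = s(u, v) ∧ z ∈ segment ℝ (P u) (P v)}

theorem sarc_mk (P : V → ℝ × ℝ) (u v : V) : sarc P s(u, v) = segment ℝ (P u) (P v) := by
  ext z
  constructor
  · rintro ⟨u', v', he, hz⟩
    rcases Sym2.eq_iff.mp he with ⟨rfl, rfl⟩ | ⟨rfl, rfl⟩
    · exact hz
    · rwa [segment_symm]
  · intro hz
    exact ⟨u, v, rfl, hz⟩

theorem edgeSeg_mk (P : V → ℝ × ℝ) (u v : V) : edgeSeg P s(u, v) = openSegment ℝ (P u) (P v) := by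
  ext z
  constructor
  · rintro ⟨u', v', he, hz⟩
    rcases Sym2.eq_iff.mp he with ⟨rfl, rfl⟩ | ⟨rfl, rfl⟩
    · exact hz
    · rwa [openSegment_symm]
  · intro hz
    exact ⟨u, v, rfl, hz⟩

/-- two different edges: they have a common end, and meet only there, or four different ends -/
theorem two_edges (hP : GenPos P) {a b c d : V} (hab : a ≠ b) (hcd : c ≠ d)
    (hne : s(a, b) ≠ s(c, d)) {z : ℝ × ℝ} (hz : z ∈ segment ℝ (P a) (P b))
    (hz' : z ∈ segment ℝ (P c) (P d)) :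
    (∃ v, v ∈ s(a, b) ∧ v ∈ s(c, d) ∧ z = P v ∧
      ∀ w ∈ segment ℝ (P a) (P b), w ∈ segment ℝ (P c) (P d) → w = P v) ∨
    (a ≠ c ∧ a ≠ d ∧ b ≠ c ∧ b ≠ d) := by
  by_cases hac : a = c
  · subst hac
    have hbd : b ≠ d := by
      rintro rfl
      exact hne rfl
    refine Or.inl ⟨a, by simp, by simp, adj_meet hP hab hcd hbd hz hz', ?_⟩
    intro w h1 h2
    exact adj_meet hP hab hcd hbd h1 h2
  by_cases had : a = d
  · subst had
    have hbc : b ≠ c := by
      rintro rfl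
      exact hne Sym2.eq_swap
    rw [segment_symm ℝ (P c)] at hz' ⊢
    refine Or.inl ⟨a, by simp, by simp, adj_meet hP hab hac hbc hz hz', ?_⟩
    intro w h1 h2
    exact adj_meet hP hab hac hbc h1 h2
  by_cases hbc : b = c
  · subst hbc
    rw [segment_symm ℝ (P a)] at hz ⊢
    refine Or.inl ⟨b, by simp, by simp, adj_meet hP hab.symm hcd had hz hz', ?_⟩
    intro w h1 h2
    exact adj_meet hP hab.symm hcd had h1 h2
  by_cases hbd : b = d
  · subst hbd
    rw [segment_symm ℝ (P a)] at hz ⊢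
    rw [segment_symm ℝ (P c)] at hz' ⊢
    refine Or.inl ⟨b, by simp, by simp, adj_meet hP hab.symm hcd.symm hac hz hz', ?_⟩
    intro w h1 h2
    exact adj_meet hP hab.symm hcd.symm hac h1 h2
  exact Or.inr ⟨hac, had, hbc, hbd⟩

theorem not_vertex (hP : GenPos P) {a b : V} (hab : a ≠ b) {w : V}
    (h : P w ∈ segment ℝ (P a) (P b)) : w = a ∨ w = b := by
  by_contra hc
  push Not at hc
  exact vert_not hP hab hc.1.symm hc.2.symm h

end Real40

/-- REAL -/
theorem stReal : StReal := by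
  intro V _ G P hP
  have honce : ∀ e ∈ G.edgeSet, ∀ f ∈ G.edgeSet, e ≠ f →
      (sarc P e ∩ sarc P f).Subsingleton := by
    intro e he f hf hef
    induction e with
    | _ a b =>
    induction f with
    | _ c d =>
    rw [SimpleGraph.mem_edgeSet] at he hf
    rw [sarc_mk, sarc_mk]
    intro z hz w hw
    rcases two_edges hP he.ne hf.ne hef hz.1 hz.2 with ⟨v, -, -, hv, hall⟩ | ⟨h1, h2, h3, h4⟩
    · rw [hv, hall w hw.1 hw.2]
    · exact cross_unique (disj_det hP he.ne h1 h2 h3 h4 hf.ne hz.1 hz.2) hz.1 hz.2 hw.1 hw.2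
  refine ⟨⟨P, sarc P, hP.inj, ?_, ?_, honce, ?_, ?_⟩, ?_⟩
  · intro u v huv
    rw [sarc_mk]
    exact isArc_segment (fun h => huv.ne (hP.inj h))
  · intro u v w huv hw
    rw [sarc_mk] at hw
    exact not_vertex hP huv.ne hw
  · intro e he f hf hef z hz
    induction e with
    | _ a b =>
    induction f with
    | _ c d =>
    rw [SimpleGraph.mem_edgeSet] at he hf
    rw [sarc_mk, sarc_mk] at hz ⊢
    rcases two_edges hP he.ne hf.ne hef hz.1 hz.2 with ⟨v, h1, h2, hv, -⟩ | ⟨h1, h2, h3, h4⟩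
    · exact Or.inl ⟨v, h1, h2, hv⟩
    · right
      have ho := disj_open hP he.ne h1 h2 h3 h4 hf.ne hz.1 hz.2
      exact proper_of_det (disj_det hP he.ne h1 h2 h3 h4 hf.ne hz.1 hz.2) ho.1 ho.2
  · intro e he f hf g hg hef heg hfg z hz
    by_contra hnv
    induction e with
    | _ a b =>
    induction f with
    | _ c d =>
    induction g with
    | _ x y =>
    rw [SimpleGraph.mem_edgeSet] at he hf hg
    rw [sarc_mk, sarc_mk, sarc_mk] at hz
    obtain ⟨⟨hz1, hz2⟩, hz3⟩ := hz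
    have hno : ∀ v, z ≠ P v := fun v hv => hnv ⟨v, hv.symm⟩
    rcases two_edges hP he.ne hf.ne hef hz1 hz2 with ⟨v, -, -, hv, -⟩ | ⟨h1, h2, h3, h4⟩
    · exact hno v hv
    rcases two_edges hP he.ne hg.ne heg hz1 hz3 with ⟨v, -, -, hv, -⟩ | ⟨k1, k2, k3, k4⟩
    · exact hno v hv
    rcases two_edges hP hf.ne hg.ne hfg hz2 hz3 with ⟨v, -, -, hv, -⟩ | ⟨l1, l2, l3, l4⟩
    · exact hno v hv
    have o1 := disj_open hP he.ne h1 h2 h3 h4 hf.ne hz1 hz2
    have o2 := disj_open hP he.ne k1 k2 k3 k4 hg.ne hz1 hz3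
    have := hP.conc a b c d x y (by
      simp only [List.nodup_cons, List.mem_cons, List.not_mem_nil, or_false, not_or,
        List.nodup_nil, and_true, not_false_eq_true]
      exact ⟨⟨he.ne, h1, h2, k1, k2⟩, ⟨h3, h4, k3, k4⟩, ⟨hf.ne, l1, l2⟩, ⟨l3, l4⟩, hg.ne⟩)
    have hmem : z ∈ sg P (a, b) ∩ sg P (c, d) ∩ sg P (x, y) := ⟨⟨o1.1, o1.2⟩, o2.2⟩
    rw [this] at hmem
    exact hmem
  · intro e f hc
    obtain ⟨he, hf, hef, z, hz, hnv⟩ := hc
    refine ⟨z, ?_⟩
    revert hz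
    change z ∈ sarc P e ∩ sarc P f → z ∈ edgeSeg P e ∩ edgeSeg P f
    have hno : ∀ v, z ≠ P v := fun v hv => hnv ⟨v, hv.symm⟩
    induction e with
    | _ a b =>
    induction f with
    | _ c d =>
    rw [SimpleGraph.mem_edgeSet] at he hf
    rw [sarc_mk, sarc_mk, edgeSeg_mk, edgeSeg_mk]
    intro hz
    rcases two_edges hP he.ne hf.ne hef hz.1 hz.2 with ⟨v, -, -, hv, -⟩ | ⟨h1, h2, h3, h4⟩
    · exact absurd hv (hno v)
    · exact disj_open hP he.ne h1 h2 h3 h4 hf.ne hz.1 hz.2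

end Pool.Agent.Lib.MP_1fca17_co.Top
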